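import Pool.Agent.COA.St

set_option autoImplicit false

/-!
# Project COA: module ABS, the potential argument
-/

namespace COA

namespace ABSx

theorem key (v M : ℝ) (hM : 1 ≤ M) (hv : v ≤ M) :
    1 + (v - 1) / M ≤ (1 + v / M) * (1 - 1 / (2 * M)) := by
  have hM0 : 0 < M := by linarith
  have h : (1 + v / M) * (1 - 1 / (2 * M)) - (1 + (v - 1) / M) = (M - v) / (2 * M ^ 2) := by
    field_simp
    ring
  have h2 : 0 ≤ (M - v) / (2 * M ^ 2) := div_nonneg (by linarith) (by positivity)
  linarith

theorem beta_nonneg (M : ℝ) (hM : 1 ≤ M) : 0 ≤ 1 - 1 / (2 * M) := by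
  have : 1 / (2 * M) ≤ 1 := by
    rw [div_le_one (by linarith)]
    linarith
  linarith

end ABSx

open ABSx in
theorem t_ABS : S_ABS := by
  intro hF U V c M hc hM hU hV hUa hVa t
  have hM0 : 0 < M := by linarith
  have hb := beta_nonneg M hM
  induction t with
  | zero =>
    intro s
    have h1 := (hF.1 0 s).2
    have h2 : 0 ≤ U s / c := div_nonneg (hU s) hc.le
    have h3 : 0 ≤ V s / M := div_nonneg (hV s) hM0.le
    rw [pow_zero, mul_one]
    linarith
  | succ t ih =>
    intro s
    have hbt : 0 ≤ (1 - 1 / (2 * M)) ^ t := pow_nonneg hb t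
    have hbt' : 0 ≤ (1 - 1 / (2 * M)) ^ (t + 1) := pow_nonneg hb _
    have h2 : 0 ≤ U s / c := div_nonneg (hU s) hc.le
    have h3 : 0 ≤ V s / M := div_nonneg (hV s) hM0.le
    have h4 : 0 ≤ (1 + V s / M) * (1 - 1 / (2 * M)) ^ (t + 1) := mul_nonneg (by linarith) hbt'
    by_cases h0 : s = (0, 0)
    · rw [h0, hF.2.1 (t + 1), ← h0]
      linarith
    · rcases le_or_gt c (U s) with hcU | hcU
      · have h1 := (hF.1 (t + 1) s).2
        have h5 : 1 ≤ U s / c := by rwa [le_div_iff₀ hc, one_mul]
        linarith
      · obtain ⟨hv1, hv2⟩ := hVa s h0 hcU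
        have hu := hUa s h0
        have e1 : f (t + 1) s = (f t (step s false) + f t (step s true)) / 2 := rfl
        have i1 := ih (step s false)
        have i2 := ih (step s true)
        have e2 : f (t + 1) s ≤ avg U s / c + (1 + avg V s / M) * (1 - 1 / (2 * M)) ^ t := by
          rw [e1]
          refine le_trans (div_le_div_of_nonneg_right (add_le_add i1 i2) (by norm_num)) (le_of_eq ?_)
          unfold avg
          ring
        have e3 : avg U s / c ≤ U s / c := div_le_div_of_nonneg_right hu hc.le
        have e4 : 1 + avg V s / M ≤ (1 + V s / M) * (1 - 1 / (2 * M)) := by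
          refine le_trans ?_ (key (V s) M hM hv1)
          have : avg V s / M ≤ (V s - 1) / M := div_le_div_of_nonneg_right (by linarith) hM0.le
          linarith
        have e5 : (1 + avg V s / M) * (1 - 1 / (2 * M)) ^ t ≤
            (1 + V s / M) * (1 - 1 / (2 * M)) * (1 - 1 / (2 * M)) ^ t :=
          mul_le_mul_of_nonneg_right e4 hbt
        rw [pow_succ']
        linarith

end COA
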