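import Pool.Agent.COA.St2
import Pool.Agent.Lib_helper72.AS.Sieve1

/-!
# Coalescence of Collatz trajectories, module BT: Brun-Titchmarsh modulo powers of two
-/

set_option autoImplicit false

namespace COA

open Filter Topology Finset

noncomputable section

namespace BTx

lemma log_le_sum (n : ℕ) : Real.log (n + 1) ≤ ∑ u ∈ Icc 1 n, (1 : ℝ) / u := by
  have h := log_add_one_le_harmonic n
  rw [harmonic_eq_sum_Icc] at h
  push_cast at h
  simpa [one_div] using h

/-- the elementary inequalities -/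
lemma sizes {x t : ℕ} (hx : 2 ≤ x) (ht : 2 ^ (2 * t) ≤ x) :
    0 < Real.log x ∧ Real.exp (Real.log x / 4) ≤ 4 * ((x : ℝ) / (2 ^ t * Real.log x)) ∧
      (1 : ℝ) ≤ (x : ℝ) / 2 ^ t := by
  have hx0 : (0 : ℝ) < x := by
    have : 0 < x := by omega
    exact_mod_cast this
  have hL : 0 < Real.log x := Real.log_pos (by exact_mod_cast (by omega : 1 < x))
  set L := Real.log x with hLdef
  have hexp : Real.exp L = x := Real.exp_log hx0
  set a := Real.exp (L / 4) with ha
  have ha0 : 0 < a := Real.exp_pos _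
  have ha4 : a ^ 4 = x := by
    rw [ha, ← Real.exp_nat_mul, ← hexp]
    congr 1
    push_cast
    ring
  have haL : L ≤ 4 * a := by
    have := Real.add_one_le_exp (L / 4)
    linarith
  have h2 : (2 : ℝ) ^ t ≤ a ^ 2 := by
    have h3 : ((2 : ℝ) ^ t) ^ 2 ≤ (a ^ 2) ^ 2 := by
      have h4 : ((2 : ℝ) ^ (2 * t)) ≤ x := by exact_mod_cast ht
      calc ((2 : ℝ) ^ t) ^ 2 = 2 ^ (2 * t) := by rw [← pow_mul, mul_comm]
        _ ≤ x := h4
        _ = (a ^ 2) ^ 2 := by rw [← ha4]; ring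
    exact le_of_sq_le_sq h3 (by positivity)
  have h2t : (0 : ℝ) < 2 ^ t := by positivity
  refine ⟨hL, ?_, ?_⟩
  · have h5 : 4 * ((x : ℝ) / (2 ^ t * L)) = 4 * a ^ 4 / (2 ^ t * L) := by rw [ha4]; ring
    rw [h5, le_div_iff₀ (by positivity)]
    calc a * (2 ^ t * L) ≤ a * (a ^ 2 * (4 * a)) := by gcongr
      _ = 4 * a ^ 4 := by ring
  · rw [le_div_iff₀ h2t, one_mul, ← ha4]
    have h1a : 1 ≤ a := Real.one_le_exp (by positivity)
    calc (2 : ℝ) ^ t ≤ a ^ 2 := h2
      _ ≤ a ^ 4 := pow_le_pow_right₀ h1a (by norm_num)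

end BTx

open BTx in
theorem t_BT : S_BT := by
  classical
  refine ⟨108, by norm_num, fun x t r hx ht => ?_⟩
  obtain ⟨hL, hexp, hone⟩ := sizes hx ht
  set L := Real.log x with hLdef
  set X : ℝ := (x : ℝ) / (2 ^ t * L) with hX
  have h2t : (0 : ℝ) < 2 ^ t := by positivity
  have hX1 : 1 ≤ 4 * X := le_trans (Real.one_le_exp (by positivity)) hexp
  have hX0 : 0 < X := by linarith
  by_cases hcop : Nat.Coprime (2 ^ t) (r % 2 ^ t)
  · set z : ℕ := ⌊Real.exp (L / 24)⌋₊ with hz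
    have hz1 : 1 ≤ z := by
      rw [hz]
      apply Nat.le_floor
      push_cast
      exact Real.one_le_exp (by positivity)
    have hzle : (z : ℝ) ≤ Real.exp (L / 24) := Nat.floor_le (Real.exp_pos _).le
    have hzX : (z : ℝ) ≤ 4 * X :=
      hzle.trans ((Real.exp_le_exp.mpr (by linarith)).trans hexp)
    have hz6 : (z : ℝ) ^ 6 ≤ 4 * X := by
      refine le_trans ?_ hexp
      calc (z : ℝ) ^ 6 ≤ Real.exp (L / 24) ^ 6 := by gcongr
        _ = Real.exp (L / 4) := by
          rw [← Real.exp_nat_mul]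
          congr 1
          push_cast
          ring
    have hsum : L / 24 ≤ ∑ u ∈ Icc 1 z, (1 : ℝ) / u := by
      refine le_trans ?_ (log_le_sum z)
      rw [Real.le_log_iff_exp_le (by positivity)]
      exact (Nat.lt_floor_add_one _).le
    have he : 0 < 2 ^ t := by positivity
    have hb : IsCoprime (((2 ^ t : ℕ)) : ℤ) ((r % 2 ^ t : ℕ) : ℤ) :=
      Nat.isCoprime_iff_coprime.2 hcop
    have hcount := Pool.Agent.Lib_helper72.AS.lin_count_le he hb 0 (x / 2 ^ t + 1) z hz1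
    set F := (Ico 0 (0 + (x / 2 ^ t + 1))).filter (fun n => Nat.Coprime (primorial z)
      (Pool.Agent.Lib_helper72.AS.fL (2 ^ t) ((r % 2 ^ t : ℕ) : ℤ) n).natAbs) with hF
    have hsub : {p : ℕ | p.Prime ∧ p ≤ x ∧ p ≡ r [MOD 2 ^ t]} ⊆
        ((Icc 1 z ∪ F.image (fun n => 2 ^ t * n + r % 2 ^ t) : Finset ℕ) : Set ℕ) := by
      rintro p ⟨hp, hpx, hpr⟩
      rw [Finset.mem_coe, mem_union]
      by_cases hpz : p ≤ z
      · left
        rw [mem_Icc]
        exact ⟨hp.one_lt.le, hpz⟩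
      · right
        have hmod : p % 2 ^ t = r % 2 ^ t := hpr
        have hpe : 2 ^ t * (p / 2 ^ t) + r % 2 ^ t = p := by
          rw [← hmod]
          exact Nat.div_add_mod p (2 ^ t)
        rw [mem_image]
        refine ⟨p / 2 ^ t, ?_, hpe⟩
        rw [hF, mem_filter, mem_Ico]
        refine ⟨⟨Nat.zero_le _, ?_⟩, ?_⟩
        · have := Nat.div_le_div_right (c := 2 ^ t) hpx
          omega
        · have h7 : (Pool.Agent.Lib_helper72.AS.fL (2 ^ t) ((r % 2 ^ t : ℕ) : ℤ)
              (p / 2 ^ t)).natAbs = p := by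
            unfold Pool.Agent.Lib_helper72.AS.fL
            have h8 : ((2 ^ t : ℕ) : ℤ) * ((p / 2 ^ t : ℕ) : ℤ) + ((r % 2 ^ t : ℕ) : ℤ) =
                (p : ℤ) := by exact_mod_cast hpe
            rw [h8, Int.natAbs_natCast]
          rw [h7]
          exact Pool.Agent.Lib_helper72.AP.coprime_primorial_of_prime hp (by omega)
    have hcard : ({p : ℕ | p.Prime ∧ p ≤ x ∧ p ≡ r [MOD 2 ^ t]}.ncard : ℝ) ≤
        (z : ℝ) + (F.card : ℝ) := by
      have h1 := Set.ncard_le_ncard hsub (Finset.finite_toSet _)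
      rw [Set.ncard_coe_finset] at h1
      have h2 := Finset.card_union_le (Icc 1 z) (F.image (fun n => 2 ^ t * n + r % 2 ^ t))
      have h3 : (F.image (fun n => 2 ^ t * n + r % 2 ^ t)).card ≤ F.card := card_image_le
      have h4 : (Icc 1 z).card = z := by simp
      have h5 : {p : ℕ | p.Prime ∧ p ≤ x ∧ p ≡ r [MOD 2 ^ t]}.ncard ≤ z + F.card := by omega
      exact_mod_cast h5
    have htot : ((2 ^ t : ℕ) : ℝ) ≤ 2 * ((2 ^ t).totient : ℝ) := by
      rcases Nat.eq_zero_or_pos t with h0 | h0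
      · subst h0
        simp
      · have h1 : (2 ^ t).totient = 2 ^ (t - 1) := by
          rw [Nat.totient_prime_pow Nat.prime_two h0]
          simp
        rw [h1]
        have h2 : 2 ^ t = 2 * 2 ^ (t - 1) := by
          rw [← pow_succ']
          congr 1
          omega
        exact_mod_cast h2.le
    have hFc : (F.card : ℝ) ≤ 104 * X := by
      have hF0 : (0 : ℝ) ≤ F.card := Nat.cast_nonneg _
      have hH : ((x / 2 ^ t + 1 : ℕ) : ℝ) ≤ 2 * ((x : ℝ) / 2 ^ t) := by
        have h1 : ((x / 2 ^ t : ℕ) : ℝ) ≤ (x : ℝ) / ((2 ^ t : ℕ) : ℝ) := Nat.cast_div_le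
        push_cast at h1 ⊢
        linarith
      have h2 : ((x / 2 ^ t + 1 : ℕ) : ℝ) / (∑ u ∈ Icc 1 z, (1 : ℝ) / u) ≤
          2 * ((x : ℝ) / 2 ^ t) / (L / 24) := by
        apply div_le_div₀ (by positivity) hH (by positivity) hsum
      have h3 : 2 * ((x : ℝ) / 2 ^ t) / (L / 24) = 48 * X := by
        rw [hX]
        field_simp
        norm_num
      have h4 : ((2 ^ t : ℕ) : ℝ) * (F.card : ℝ) ≤
          2 * (((2 ^ t).totient : ℝ) * (F.card : ℝ)) := by
        nlinarith
      have h5 : ((2 ^ t : ℕ) : ℝ) * (F.card : ℝ) ≤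
          ((2 ^ t : ℕ) : ℝ) * (104 * X) := by
        refine h4.trans ?_
        have h6 : ((2 ^ t).totient : ℝ) * (F.card : ℝ) ≤ ((2 ^ t : ℕ) : ℝ) * (48 * X + 4 * X) := by
          refine hcount.trans ?_
          apply mul_le_mul_of_nonneg_left _ (by positivity)
          exact add_le_add (h2.trans h3.le) hz6
        linarith
      have h7 : (0 : ℝ) < ((2 ^ t : ℕ) : ℝ) := by positivity
      exact le_of_mul_le_mul_left h5 h7
    linarith
  · have ht0 : t ≠ 0 := by
      rintro rfl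
      exact hcop (by simp)
    have hsub : {p : ℕ | p.Prime ∧ p ≤ x ∧ p ≡ r [MOD 2 ^ t]} ⊆ ({2} : Set ℕ) := by
      rintro p ⟨hp, -, hpr⟩
      rw [Set.mem_singleton_iff]
      have h2 : 2 ∣ r % 2 ^ t := by
        by_contra hc
        apply hcop
        apply Nat.Coprime.pow_left
        exact (Nat.Prime.coprime_iff_not_dvd Nat.prime_two).2 hc
      have hmod : p % 2 ^ t = r % 2 ^ t := hpr
      have h3 : 2 ∣ p := by
        rw [← hmod] at h2
        have h4 : 2 ∣ 2 ^ t := dvd_pow_self 2 ht0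
        exact (Nat.dvd_mod_iff h4).1 h2
      exact ((Nat.prime_dvd_prime_iff_eq Nat.prime_two hp).1 h3).symm
    have h1 := Set.ncard_le_ncard hsub (Set.finite_singleton 2)
    rw [Set.ncard_singleton] at h1
    have h2 : ({p : ℕ | p.Prime ∧ p ≤ x ∧ p ≡ r [MOD 2 ^ t]}.ncard : ℝ) ≤ 1 := by
      exact_mod_cast h1
    linarith

end

end COA
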