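import Pool.Agent.COA.St

/-!
# Coalescence of Collatz trajectories: correctness of the chain of states (helper91)
-/

set_option autoImplicit false

namespace COA

open Finset

namespace CORx

theorem T_even {z : ℤ} (h : z % 2 = 0) : 2 * T z = z := by
  unfold T
  rw [if_pos h]
  omega

theorem T_odd {z : ℤ} (h : z % 2 = 1) : 2 * T z = 3 * z + 1 := by
  unfold T
  rw [if_neg (by omega)]
  omega

theorem od_succ (t : ℕ) (z : ℤ) : od (t + 1) z = od t (T z) + (if z % 2 = 1 then 1 else 0) := by
  unfold od
  rw [card_filter, card_filter, sum_range_succ']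
  rfl

theorem it_succ (t : ℕ) (z : ℤ) : T^[t + 1] z = T^[t] (T z) := rfl

theorem pow_odd (e : ℕ) : (3 : ℤ) ^ e % 2 = 1 := by
  have h : Odd ((3 : ℤ) ^ e) := Odd.pow (by decide)
  rcases h with ⟨k, hk⟩
  omega

end CORx

open CORx

theorem t_COR : S_COR := by
  intro t
  induction t with
  | zero =>
    intro z s h
    have h1 : s = (0, 0) := h
    subst h1
    simp [od]
  | succ t ih =>
    intro z s h
    have h0 : Mg t (nx s z) (step s (decide (z % 2 = 1))) := h
    obtain ⟨e, D⟩ := s
    have hi := ih _ _ h0
    clear h h0 ih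
    show T^[t] (T z) = T^[t] (T (3 ^ e * z + D)) ∧ _
    rw [od_succ, od_succ]
    have hp := pow_odd e
    obtain ⟨q, hq⟩ : ∃ q : ℤ, (3 : ℤ) ^ e = 2 * q + 1 := ⟨(3 : ℤ) ^ e / 2, by omega⟩
    have hy : (3 ^ e * z + D) % 2 = (z + D) % 2 := by
      have : (3 : ℤ) ^ e * z + D = (z + D) + 2 * (q * z) := by rw [hq]; ring
      omega
    by_cases hD : D % 2 = 0
    · by_cases hz : z % 2 = 0
      · have hs : step (e, D) (decide (z % 2 = 1)) = (e, D / 2) := by
          simp [step, hD, hz]
        have hn : nx (e, D) z = T z := by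
          simp [nx, hD]
        rw [hs, hn] at hi
        have hy0 : (3 ^ e * z + D) % 2 = 0 := by omega
        have hT : (3 : ℤ) ^ e * T z + D / 2 = T (3 ^ e * z + D) := by
          have h1 := T_even hz
          have h2 := T_even hy0
          have h3 : 2 * (3 ^ e * T z) = 3 ^ e * z := by rw [← mul_assoc, mul_comm 2, mul_assoc, h1]
          omega
        have hi1 : T^[t] (T z) = T^[t] (3 ^ e * T z + D / 2) := hi.1
        have hi2 : od t (T z) = e + od t (3 ^ e * T z + D / 2) := hi.2
        rw [hT] at hi1 hi2
        refine ⟨hi1, ?_⟩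
        show od t (T z) + (if z % 2 = 1 then 1 else 0) = e + (od t (T (3 ^ e * z + D)) +
          (if (3 ^ e * z + D) % 2 = 1 then 1 else 0))
        rw [if_neg (by omega), if_neg (by omega)]
        omega
      · have hz1 : z % 2 = 1 := by omega
        have hs : step (e, D) (decide (z % 2 = 1)) = (e, (3 * D + 1 - 3 ^ e) / 2) := by
          simp [step, hD, hz1]
        have hn : nx (e, D) z = T z := by
          simp [nx, hD]
        rw [hs, hn] at hi
        have hy0 : (3 ^ e * z + D) % 2 = 1 := by omega
        have hT : (3 : ℤ) ^ e * T z + (3 * D + 1 - 3 ^ e) / 2 = T (3 ^ e * z + D) := by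
          have h1 := T_odd hz1
          have h2 := T_odd hy0
          have h3 : 2 * (3 ^ e * T z) = 3 * (3 ^ e * z) + 3 ^ e := by
            rw [← mul_assoc, mul_comm 2, mul_assoc, h1]; ring
          omega
        have hi1 : T^[t] (T z) = T^[t] (3 ^ e * T z + (3 * D + 1 - 3 ^ e) / 2) := hi.1
        have hi2 : od t (T z) = e + od t (3 ^ e * T z + (3 * D + 1 - 3 ^ e) / 2) := hi.2
        rw [hT] at hi1 hi2
        refine ⟨hi1, ?_⟩
        rw [if_pos hz1, if_pos hy0]
        show od t (T z) + 1 = e + (od t (T (3 ^ e * z + D)) + 1)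
        omega
    · have hD1 : D % 2 = 1 := by omega
      by_cases hz : z % 2 = 0
      · have hs : step (e, D) (decide (z % 2 = 1)) = (e + 1, (3 * D + 1) / 2) := by
          simp [step, hD1, hz]
        have hn : nx (e, D) z = T z := by
          simp [nx, hz]
        rw [hs, hn] at hi
        have hy0 : (3 ^ e * z + D) % 2 = 1 := by omega
        have hT : (3 : ℤ) ^ (e + 1) * T z + (3 * D + 1) / 2 = T (3 ^ e * z + D) := by
          have h1 := T_even hz
          have h2 := T_odd hy0
          have h3 : 2 * (3 ^ (e + 1) * T z) = 3 * (3 ^ e * z) := by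
            rw [← mul_assoc, mul_comm 2, mul_assoc, h1]; ring
          omega
        have hi1 : T^[t] (T z) = T^[t] (3 ^ (e + 1) * T z + (3 * D + 1) / 2) := hi.1
        have hi2 : od t (T z) = (e + 1) + od t (3 ^ (e + 1) * T z + (3 * D + 1) / 2) := hi.2
        rw [hT] at hi1 hi2
        refine ⟨hi1, ?_⟩
        rw [if_neg (by omega), if_pos hy0]
        show od t (T z) + 0 = e + (od t (T (3 ^ e * z + D)) + 1)
        omega
      · have hz1 : z % 2 = 1 := by omega
        have hy0 : (3 ^ e * z + D) % 2 = 0 := by omega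
        rcases Nat.eq_zero_or_pos e with he | he
        · subst he
          have hs : step (0, D) (decide (z % 2 = 1)) = (1, (1 - 3 * D) / 2) := by
            simp [step, hD1, hz1]
          have hn : nx (0, D) z = (z + D) / 2 := by
            simp [nx, hD1, hz1]
          rw [hs, hn] at hi
          have h1 := T_odd hz1
          have h2 := T_even hy0
          have h3 : (z + D) / 2 = T (3 ^ 0 * z + D) := by
            rw [pow_zero, one_mul] at h2 hy0 ⊢
            omega
          have h4 : (3 : ℤ) ^ 1 * ((z + D) / 2) + (1 - 3 * D) / 2 = T z := by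
            rw [pow_one]
            omega
          have hi1 : T^[t] ((z + D) / 2) = T^[t] (3 ^ 1 * ((z + D) / 2) + (1 - 3 * D) / 2) := hi.1
          have hi2 : od t ((z + D) / 2) = 1 + od t (3 ^ 1 * ((z + D) / 2) + (1 - 3 * D) / 2) := hi.2
          rw [h4, h3] at hi1 hi2
          refine ⟨hi1.symm, ?_⟩
          show od t (T z) + (if z % 2 = 1 then 1 else 0) = 0 + (od t (T (3 ^ 0 * z + D)) +
            (if (3 ^ 0 * z + D) % 2 = 1 then 1 else 0))
          rw [if_pos hz1, if_neg (by omega)]
          omega
        · obtain ⟨k, rfl⟩ : ∃ k, e = k + 1 := ⟨e - 1, by omega⟩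
          have hs : step (k + 1, D) (decide (z % 2 = 1)) = (k, (D - 3 ^ k) / 2) := by
            simp [step, hD1, hz1]
          have hn : nx (k + 1, D) z = T z := by
            simp [nx]
          rw [hs, hn] at hi
          have hk := pow_odd k
          have hT : (3 : ℤ) ^ k * T z + (D - 3 ^ k) / 2 = T (3 ^ (k + 1) * z + D) := by
            have h1 := T_odd hz1
            have h2 := T_even hy0
            have h3 : 2 * (3 ^ k * T z) = 3 ^ (k + 1) * z + 3 ^ k := by
              rw [← mul_assoc, mul_comm 2, mul_assoc, h1]; ring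
            omega
          have hi1 : T^[t] (T z) = T^[t] (3 ^ k * T z + (D - 3 ^ k) / 2) := hi.1
          have hi2 : od t (T z) = k + od t (3 ^ k * T z + (D - 3 ^ k) / 2) := hi.2
          rw [hT] at hi1 hi2
          refine ⟨hi1, ?_⟩
          show od t (T z) + (if z % 2 = 1 then 1 else 0) = (k + 1) +
            (od t (T (3 ^ (k + 1) * z + D)) + (if (3 ^ (k + 1) * z + D) % 2 = 1 then 1 else 0))
          rw [if_pos hz1, if_neg (by omega)]
          omega

end COA
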