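import Pool.Agent.COA.St2

set_option autoImplicit false

/-!
# Project COA: module DET, orbit minima of trajectories that meet
-/

namespace COA

open Pool.Agent.LibHelper3 (collatz)

namespace DETx

theorem ex (n : ℕ) : ∃ k, collatz^[k] n = oMin n :=
  Nat.sInf_mem (s := {m : ℕ | ∃ k, collatz^[k] n = m}) ⟨n, 0, rfl⟩

theorem le (n k : ℕ) : oMin n ≤ collatz^[k] n :=
  Nat.sInf_le (s := {m : ℕ | ∃ k, collatz^[k] n = m}) ⟨k, rfl⟩

theorem atT (n : ℕ) : collatz^[mTime n] n = oMin n :=
  Nat.sInf_mem (s := {k : ℕ | collatz^[k] n = oMin n}) (ex n)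

theorem leT (n k : ℕ) (h : collatz^[k] n = oMin n) : mTime n ≤ k :=
  Nat.sInf_le (s := {k : ℕ | collatz^[k] n = oMin n}) h

theorem mono (n k : ℕ) : oMin n ≤ oMin (collatz^[k] n) := by
  obtain ⟨i, hi⟩ := ex (collatz^[k] n)
  rw [← hi, ← Function.iterate_add_apply]
  exact le n _

theorem gen (n k : ℕ) (h : ∀ j < k, oMin (collatz^[k] n) < collatz^[j] n) :
    oMin n = oMin (collatz^[k] n) ∧ mTime n = k + mTime (collatz^[k] n) := by
  have h1 := mono n k
  have h2 : k ≤ mTime n := by
    by_contra hlt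
    have h3 := h (mTime n) (not_le.mp hlt)
    rw [atT n] at h3
    omega
  have h4 : oMin n = oMin (collatz^[k] n) := by
    refine le_antisymm h1 ?_
    have := le (collatz^[k] n) (mTime n - k)
    rw [← Function.iterate_add_apply, Nat.sub_add_cancel h2, atT n] at this
    exact this
  refine ⟨h4, le_antisymm ?_ ?_⟩
  · refine leT n _ ?_
    rw [add_comm, Function.iterate_add_apply, atT (collatz^[k] n), h4]
  · have := leT (collatz^[k] n) (mTime n - k) (by
      rw [← Function.iterate_add_apply, Nat.sub_add_cancel h2, atT n, h4])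
    omega

end DETx

open DETx in
theorem t_DET : S_DET := by
  intro n n' k k' h h1 h2
  have e1 : oMin (collatz^[k] n) ≤ oMin n := by
    obtain ⟨i, hi⟩ := ex n
    have hk : k ≤ i := by
      by_contra hlt
      have := h1 i (not_le.mp hlt)
      omega
    have := le (collatz^[k] n) (i - k)
    rwa [← Function.iterate_add_apply, Nat.sub_add_cancel hk, hi] at this
  obtain ⟨a1, a2⟩ := gen n k fun j hj => lt_of_le_of_lt e1 (h1 j hj)
  rw [h] at e1 a1 a2
  obtain ⟨b1, b2⟩ := gen n' k' fun j hj => lt_of_le_of_lt e1 (h2 j hj)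
  exact ⟨by omega, by omega⟩

end COA
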