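import Pool.Agent.COA.St

/-!
# COA (helper89): basic facts on the proportion `f` (`S_FPR`)
-/

set_option autoImplicit false

namespace COA

noncomputable section

namespace FPRx

lemma step_zero (c : Bool) : step (0, 0) c = (0, 0) := by
  cases c <;> decide

lemma f_bd : ∀ (t : ℕ) (s : ℕ × ℤ), 0 ≤ f t s ∧ f t s ≤ 1
  | 0, s => by
    unfold f
    split_ifs <;> norm_num
  | t + 1, s => by
    have h1 := f_bd t (step s false)
    have h2 := f_bd t (step s true)
    rw [f]
    constructor
    · linarith [h1.1, h2.1]
    · linarith [h1.2, h2.2]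

lemma f_zero : ∀ t : ℕ, f t (0, 0) = 0
  | 0 => by
    unfold f
    rw [if_pos rfl]
  | t + 1 => by
    rw [f, step_zero, step_zero, f_zero t]
    norm_num

lemma f_anti : ∀ (t : ℕ) (s : ℕ × ℤ), f (t + 1) s ≤ f t s
  | 0, s => by
    by_cases h : s = (0, 0)
    · rw [h, f_zero, f_zero]
    · have h0 : f 0 s = 1 := by
        unfold f
        rw [if_neg h]
      rw [h0]
      exact (f_bd 1 s).2
  | t + 1, s => by
    have h1 := f_anti t (step s false)
    have h2 := f_anti t (step s true)
    have h3 : f (t + 1 + 1) s = (f (t + 1) (step s false) + f (t + 1) (step s true)) / 2 := rfl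
    have h4 : f (t + 1) s = (f t (step s false) + f t (step s true)) / 2 := rfl
    rw [h3, h4]
    linarith

lemma f_word : ∀ (w : List Bool) (s : ℕ × ℤ), w.foldl step s = (0, 0) →
    f w.length s ≤ 1 - (1 / 2 : ℝ) ^ w.length
  | [], s, h => by
    rw [List.foldl_nil] at h
    rw [h, f_zero]
    norm_num
  | c :: w, s, h => by
    rw [List.foldl_cons] at h
    have h1 := f_word w (step s c) h
    rw [List.length_cons, f, pow_succ]
    cases c
    · have h2 := (f_bd w.length (step s true)).2
      linarith
    · have h2 := (f_bd w.length (step s false)).2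
      linarith

end FPRx

theorem t_FPR : S_FPR := ⟨FPRx.f_bd, FPRx.f_zero, FPRx.f_anti, FPRx.f_word⟩

end

end COA
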