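import Pool.Agent.COA.St

set_option autoImplicit false

/-! # Coalescence: the holding time (HLD, helper50) -/

namespace COA

open Filter Topology Finset

namespace HLDx

/-- the holding time as a function of `v` and `D` -/
noncomputable def K (v : ℕ) (D : ℤ) : ℝ :=
  if (2 : ℤ) ^ v ∣ D then (v : ℝ) + 1 else (padicValInt 2 D : ℝ)

lemma H_eq {s : ℕ × ℤ} (h : 1 ≤ s.1) : H s = K (vv s.1) s.2 := by
  unfold H K
  rw [if_neg (by omega)]

lemma val_eq {j : ℕ} {m : ℤ} (hm : m % 2 = 1) : padicValInt 2 (2 ^ j * m) = j := by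
  have hm0 : m ≠ 0 := by
    rintro rfl
    simp at hm
  have hD0 : (2 : ℤ) ^ j * m ≠ 0 := mul_ne_zero (by positivity) hm0
  apply le_antisymm
  · by_contra h
    have h1 : j + 1 ≤ padicValInt 2 (2 ^ j * m) := by omega
    have h2 : ((2 : ℕ) : ℤ) ^ (j + 1) ∣ 2 ^ j * m :=
      (padicValInt_dvd_iff (p := 2) (j + 1) _).2 (Or.inr h1)
    rw [Nat.cast_ofNat, pow_succ] at h2
    have h3 : (2 : ℤ) ∣ m := (mul_dvd_mul_iff_left (by positivity)).1 h2
    omega
  · have h2 : ((2 : ℕ) : ℤ) ^ j ∣ 2 ^ j * m := by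
      rw [Nat.cast_ofNat]
      exact Dvd.intro _ rfl
    exact ((padicValInt_dvd_iff (p := 2) j _).1 h2).resolve_left hD0

lemma not_dvd {j v : ℕ} {m : ℤ} (hm : m % 2 = 1) (hj : j < v) : ¬ (2 : ℤ) ^ v ∣ 2 ^ j * m := by
  intro h
  have h1 : (2 : ℤ) ^ (j + 1) ∣ 2 ^ j * m := (pow_dvd_pow 2 hj).trans h
  rw [pow_succ] at h1
  have h3 : (2 : ℤ) ∣ m := (mul_dvd_mul_iff_left (by positivity)).1 h1
  omega

lemma K_lt {j v : ℕ} {m : ℤ} (hm : m % 2 = 1) (hj : j < v) : K v (2 ^ j * m) = j := by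
  unfold K
  rw [if_neg (not_dvd hm hj), val_eq hm]

lemma K_dvd {v : ℕ} {D : ℤ} (h : (2 : ℤ) ^ v ∣ D) : K v D = v + 1 := by
  unfold K
  rw [if_pos h]

lemma decomp {v : ℕ} {D : ℤ} (h : ¬ (2 : ℤ) ^ v ∣ D) :
    ∃ (j : ℕ) (m : ℤ), j < v ∧ m % 2 = 1 ∧ D = 2 ^ j * m := by
  have hD0 : D ≠ 0 := by
    rintro rfl
    exact h (dvd_zero _)
  have h1 : ((2 : ℕ) : ℤ) ^ (padicValInt 2 D) ∣ D := padicValInt_dvd D
  rw [Nat.cast_ofNat] at h1
  obtain ⟨m, hm⟩ := h1
  have hm2 : m % 2 = 1 := by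
    by_contra hcon
    have h2 : (2 : ℤ) ∣ m := by omega
    have h3 : ((2 : ℕ) : ℤ) ^ (padicValInt 2 D + 1) ∣ D := by
      rw [Nat.cast_ofNat, pow_succ]
      conv_rhs => rw [hm]
      exact mul_dvd_mul_left _ h2
    rcases (padicValInt_dvd_iff (p := 2) _ _).1 h3 with h4 | h4
    · exact hD0 h4
    · omega
  refine ⟨padicValInt 2 D, m, ?_, hm2, hm⟩
  by_contra hcon
  apply h
  rw [hm]
  exact (pow_dvd_pow 2 (not_lt.1 hcon)).trans (Dvd.intro _ rfl)

/-- the key identity -/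
lemma key {v : ℕ} (hv : 1 ≤ v) {g : ℤ} (hg : g % 2 = 1) (D' : ℤ) :
    K v D' + K v (3 * D' - 2 ^ (v - 1) * g) = 2 * (K v (2 * D') - 1) := by
  obtain ⟨u, rfl⟩ : ∃ u, v = u + 1 := ⟨v - 1, by omega⟩
  rw [Nat.add_sub_cancel]
  by_cases h : (2 : ℤ) ^ (u + 1) ∣ 2 * D'
  · rw [K_dvd h]
    have h1 : (2 : ℤ) ^ u ∣ D' := by
      rw [pow_succ, mul_comm] at h
      exact (mul_dvd_mul_iff_left two_ne_zero).1 h
    obtain ⟨m, rfl⟩ := h1
    have e : 3 * ((2 : ℤ) ^ u * m) - 2 ^ u * g = 2 ^ u * (3 * m - g) := by ring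
    rw [e]
    rcases Int.emod_two_eq_zero_or_one m with hm | hm
    · rw [K_dvd (D := 2 ^ u * m) (by rw [pow_succ]; exact mul_dvd_mul_left _ (by omega)),
        K_lt (j := u) (m := 3 * m - g) (by omega) (by omega)]
      push_cast
      ring
    · rw [K_dvd (D := 2 ^ u * (3 * m - g)) (by rw [pow_succ]; exact mul_dvd_mul_left _ (by omega)),
        K_lt (j := u) (m := m) hm (by omega)]
      push_cast
      ring
  · obtain ⟨j, m, hj, hm, hD⟩ := decomp h
    rcases Nat.eq_zero_or_pos j with rfl | hj0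
    · exfalso
      rw [pow_zero, one_mul] at hD
      omega
    obtain ⟨i, rfl⟩ : ∃ i, j = i + 1 := ⟨j - 1, by omega⟩
    have hD' : D' = 2 ^ i * m := by
      rw [pow_succ] at hD
      have : (2 : ℤ) * D' = 2 * (2 ^ i * m) := by rw [hD]; ring
      exact mul_left_cancel₀ two_ne_zero this
    obtain ⟨k, rfl⟩ : ∃ k, u = i + 1 + k := ⟨u - (i + 1), by omega⟩
    have e : 3 * D' - 2 ^ (i + 1 + k) * g = 2 ^ i * (3 * m - 2 * (2 ^ k * g)) := by
      rw [hD', pow_add, pow_succ]; ring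
    rw [e, K_lt (j := i) (by omega) (by omega), hD', K_lt (j := i) hm (by omega)]
    have e2 : (2 : ℤ) * (2 ^ i * m) = 2 ^ (i + 1) * m := by ring
    rw [e2, K_lt (j := i + 1) hm (by omega)]
    push_cast
    ring

lemma three_pow (e : ℕ) (he : 1 ≤ e) : ∃ g : ℤ, g % 2 = 1 ∧ (3 : ℤ) ^ e - 1 = 2 ^ vv e * g ∧
    1 ≤ vv e := by
  have h1 : 1 ≤ 3 ^ e := Nat.one_le_pow _ _ (by norm_num)
  have h3 : 3 ≤ 3 ^ e := by
    calc 3 = 3 ^ 1 := by norm_num
      _ ≤ 3 ^ e := Nat.pow_le_pow_right (by norm_num) he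
  have h0 : 3 ^ e - 1 ≠ 0 := by omega
  have hdvd : 2 ^ vv e ∣ 3 ^ e - 1 := pow_padicValNat_dvd
  obtain ⟨g, hg⟩ := hdvd
  have hodd : Odd (3 ^ e) := Odd.pow (by decide)
  have h2 : 2 ^ 1 ∣ 3 ^ e - 1 := by
    obtain ⟨k, hk⟩ := hodd
    exact ⟨k, by omega⟩
  have hv1 : 1 ≤ vv e := by
    unfold vv
    exact (padicValNat_dvd_iff_le h0).1 h2
  refine ⟨(g : ℤ), ?_, ?_, hv1⟩
  · by_contra hcon
    have h4 : 2 ∣ g := by omega
    have h5 : 2 ^ (vv e + 1) ∣ 3 ^ e - 1 := by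
      rw [hg, pow_succ]
      exact mul_dvd_mul_left _ h4
    have h6 := (padicValNat_dvd_iff_le h0).1 h5
    unfold vv at h6
    omega
  · have h7 : ((3 ^ e - 1 : ℕ) : ℤ) = ((2 ^ vv e * g : ℕ) : ℤ) := by rw [hg]
    rw [Nat.cast_sub h1] at h7
    push_cast at h7
    exact h7

lemma vv_le (e : ℕ) (he : 1 ≤ e) : vv e + 1 ≤ 2 * e := by
  have h1 : 1 ≤ 3 ^ e := Nat.one_le_pow _ _ (by norm_num)
  have h3 : 3 ≤ 3 ^ e := by
    calc 3 = 3 ^ 1 := by norm_num
      _ ≤ 3 ^ e := Nat.pow_le_pow_right (by norm_num) he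
  have hdvd : 2 ^ vv e ∣ 3 ^ e - 1 := pow_padicValNat_dvd
  have h4 : 2 ^ vv e ≤ 3 ^ e - 1 := Nat.le_of_dvd (by omega) hdvd
  have h5 : ∀ n : ℕ, 3 ^ (n + 1) ≤ 2 ^ (2 * n + 1) + 1 := by
    intro n
    induction n with
    | zero => norm_num
    | succ n ih =>
      have h6 : 2 ^ (2 * (n + 1) + 1) = 4 * 2 ^ (2 * n + 1) := by ring
      have h7 : 3 ^ (n + 1 + 1) = 3 * 3 ^ (n + 1) := by ring
      have h8 : 2 ≤ 2 ^ (2 * n + 1) := by
        calc 2 = 2 ^ 1 := by norm_num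
          _ ≤ 2 ^ (2 * n + 1) := Nat.pow_le_pow_right (by norm_num) (by omega)
      omega
  have h9 := h5 (e - 1)
  rw [Nat.sub_add_cancel he] at h9
  have h10 : 2 ^ vv e ≤ 2 ^ (2 * (e - 1) + 1) := by omega
  have h11 := (Nat.pow_le_pow_iff_right (by norm_num : 1 < 2)).1 h10
  omega

lemma K_nonneg (v : ℕ) (D : ℤ) : 0 ≤ K v D := by
  unfold K
  split_ifs
  · positivity
  · positivity

lemma K_le (v : ℕ) (D : ℤ) : K v D ≤ v + 1 := by
  by_cases h : (2 : ℤ) ^ v ∣ D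
  · rw [K_dvd h]
  · obtain ⟨j, m, hj, hm, rfl⟩ := decomp h
    rw [K_lt hm hj]
    have : (j : ℝ) ≤ v := by exact_mod_cast hj.le
    linarith

lemma vv_bound (e : ℕ) (he : 1 ≤ e) : vv e ≤ 2 + padicValNat 2 e := by
  rcases Nat.even_or_odd e with h | h
  · have h1 := padicValNat.pow_two_sub_pow (x := 3) (y := 1) (by norm_num) (by norm_num)
      (by norm_num) (n := e) (by omega) h
    rw [one_pow] at h1
    have h2 : padicValNat 2 (3 + 1) = 2 := by
      have : (3 + 1 : ℕ) = 2 ^ 2 := by norm_num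
      rw [this]
      exact padicValNat.prime_pow 2
    have h3 : padicValNat 2 (3 - 1) = 1 := by
      have : (3 - 1 : ℕ) = 2 ^ 1 := by norm_num
      rw [this]
      exact padicValNat.prime_pow 1
    rw [h2, h3] at h1
    unfold vv
    omega
  · have h4 : vv e ≤ 1 := by
      by_contra hcon
      have h5 : 2 ≤ vv e := by omega
      have h1 : 1 ≤ 3 ^ e := Nat.one_le_pow _ _ (by norm_num)
      have h6 : 2 ^ 2 ∣ 3 ^ e - 1 := (pow_dvd_pow 2 h5).trans pow_padicValNat_dvd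
      obtain ⟨k, rfl⟩ := h
      have h7 : 3 ^ (2 * k + 1) % 4 = 3 := by
        rw [pow_succ, pow_mul, Nat.mul_mod, Nat.pow_mod]
        norm_num
      rw [pow_two] at h6
      generalize 3 ^ (2 * k + 1) = x at h1 h6 h7
      omega
    omega

lemma sum_val (N : ℕ) : ∑ e ∈ range (N + 1), padicValNat 2 e = padicValNat 2 N.factorial := by
  induction N with
  | zero => simp
  | succ n ih =>
    rw [sum_range_succ, ih, Nat.factorial_succ, padicValNat.mul (by omega)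
      (Nat.factorial_ne_zero n), add_comm]

end HLDx

open HLDx in
theorem t_HLD : S_HLD := by
  refine ⟨?_, ?_, ?_, ?_⟩
  · intro s
    rcases Nat.eq_zero_or_pos s.1 with h | h
    · have h0 : H s = 0 := by unfold H; rw [if_pos h]
      rw [h0, h]
      refine ⟨le_rfl, by simp, by positivity⟩
    · rw [H_eq h]
      refine ⟨K_nonneg _ _, (K_le _ _).trans ?_, K_le _ _⟩
      exact_mod_cast vv_le s.1 h
  · intro s h hD
    obtain ⟨g, hg, hg3, hv⟩ := three_pow s.1 h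
    obtain ⟨D', hD'⟩ : ∃ D', s.2 = 2 * D' := ⟨s.2 / 2, by omega⟩
    have e1 : step s false = (s.1, D') := by
      unfold step
      rw [if_pos hD, hD']
      simp
    have e2 : step s true = (s.1, 3 * D' - 2 ^ (vv s.1 - 1) * g) := by
      unfold step
      rw [if_pos hD, hD']
      simp only [if_true]
      congr 1
      have e3 : (3 : ℤ) ^ s.1 = 1 + 2 * (2 ^ (vv s.1 - 1) * g) := by
        have e4 : (2 : ℤ) ^ vv s.1 = 2 * 2 ^ (vv s.1 - 1) := by
          rw [← pow_succ', Nat.sub_add_cancel hv]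
        rw [e4] at hg3
        linarith
      rw [e3]
      omega
    unfold avg
    rw [e1, e2, H_eq (s := (s.1, D')) h, H_eq (s := (s.1, 3 * D' - 2 ^ (vv s.1 - 1) * g)) h,
      H_eq h]
    simp only
    rw [key hv hg, hD']
    ring
  · intro s hD
    rcases Nat.eq_zero_or_pos s.1 with h | h
    · unfold H; rw [if_pos h]
    · obtain ⟨g, hg, hg3, hv⟩ := three_pow s.1 h
      rw [H_eq h]
      have := K_lt (j := 0) (v := vv s.1) hD (by omega)
      rw [pow_zero, one_mul] at this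
      rw [this]
      simp
  · intro N
    have h1 : ∀ e ∈ range (N + 1), (vv e : ℝ) ≤ (if e = 0 then 0 else 2) + (padicValNat 2 e : ℝ) := by
      intro e _
      rcases Nat.eq_zero_or_pos e with rfl | he
      · simp [vv]
      · rw [if_neg (by omega)]
        exact_mod_cast vv_bound e he
    refine (sum_le_sum h1).trans ?_
    rw [sum_add_distrib]
    have h2 : ∑ e ∈ range (N + 1), (if e = 0 then (0 : ℝ) else 2) = 2 * N := by
      rw [sum_range_succ']
      simp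
      ring
    have h3 : ∑ e ∈ range (N + 1), (padicValNat 2 e : ℝ) ≤ N := by
      have h4 := sub_one_mul_padicValNat_factorial (p := 2) N
      have h5 : padicValNat 2 N.factorial ≤ N := by omega
      rw [← sum_val] at h5
      exact_mod_cast h5
    rw [h2]
    linarith [(Nat.cast_nonneg N : (0 : ℝ) ≤ N)]

end COA
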