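import Pool.Agent.COA.St2

set_option autoImplicit false

/-!
# Coalescence of Collatz trajectories, module INV: invariant sets
-/

namespace COA

open Filter Topology Finset
open Pool.Agent.LibHelper3 (collatz)

noncomputable section

namespace INVx

lemma le_collatz (m : ℕ) : m ≤ 2 * collatz m := by
  unfold collatz
  split_ifs <;> omega

lemma le_iter (j m : ℕ) : m ≤ 2 ^ j * collatz^[j] m := by
  induction j generalizing m with
  | zero => simp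
  | succ j ih =>
    rw [Function.iterate_succ_apply, pow_succ]
    have h1 := le_collatz m
    have h2 := ih (collatz m)
    calc m ≤ 2 * collatz m := h1
      _ ≤ 2 * (2 ^ j * collatz^[j] (collatz m)) := Nat.mul_le_mul_left _ h2
      _ = 2 ^ j * 2 * collatz^[j] (collatz m) := by ring

lemma inv {B : Set ℕ} {y : ℕ} (hB : ∀ n, y < n → (n ∈ B ↔ collatz n ∈ B)) (j n : ℕ)
    (h : ∀ i < j, y < collatz^[i] n) : n ∈ B ↔ collatz^[j] n ∈ B := by
  induction j generalizing n with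
  | zero => rfl
  | succ j ih =>
    rw [Function.iterate_succ_apply, hB n (h 0 (Nat.succ_pos _))]
    refine ih _ fun i hi => ?_
    rw [← Function.iterate_succ_apply]
    exact h (i + 1) (Nat.succ_lt_succ hi)

lemma big {y j s : ℕ} {m : ℕ} {n Z W : ℝ} (hm : n ≤ m) (hn : W * ((y : ℝ) + 1) * Z < n)
    (hj : (2 : ℝ) ^ j ≤ W * Z) (_ : s = s) : y < collatz^[j] m := by
  have h1 : (m : ℝ) ≤ 2 ^ j * (collatz^[j] m : ℕ) := by exact_mod_cast le_iter j m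
  by_contra hcon
  rw [not_lt] at hcon
  have h2 : ((collatz^[j] m : ℕ) : ℝ) ≤ y + 1 := by
    have : ((collatz^[j] m : ℕ) : ℝ) ≤ y := by exact_mod_cast hcon
    linarith
  have h3 : (2 : ℝ) ^ j * (collatz^[j] m : ℕ) ≤ W * Z * (y + 1) :=
    mul_le_mul hj h2 (by positivity) (le_trans (by positivity) hj)
  nlinarith

/-- `(log x)^e ≤ 64 x^(1/4)` for `0 ≤ e ≤ 2`. -/
lemma logpow {x e : ℝ} (hx : 1 ≤ x) (he : 0 ≤ e) (he2 : e ≤ 2) :
    Real.log x ^ e ≤ 64 * x ^ (1 / 4 : ℝ) := by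
  have h0 : 0 ≤ Real.log x := Real.log_nonneg hx
  have h1 : Real.log x ≤ 8 * x ^ (1 / 8 : ℝ) := by
    have := Real.log_le_rpow_div (by linarith : (0 : ℝ) ≤ x) (by norm_num : (0 : ℝ) < 1 / 8)
    linarith
  have h2 : (1 : ℝ) ≤ 8 * x ^ (1 / 8 : ℝ) := by
    have := Real.one_le_rpow hx (by norm_num : (0 : ℝ) ≤ 1 / 8)
    linarith
  calc Real.log x ^ e ≤ (8 * x ^ (1 / 8 : ℝ)) ^ e := Real.rpow_le_rpow h0 h1 he
    _ ≤ (8 * x ^ (1 / 8 : ℝ)) ^ (2 : ℝ) := Real.rpow_le_rpow_of_exponent_le h2 he2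
    _ = 64 * x ^ (1 / 4 : ℝ) := by
      rw [Real.mul_rpow (by norm_num) (by positivity), ← Real.rpow_mul (by linarith)]
      norm_num

lemma quarter {x e : ℝ} (hx : 2 ≤ x) (he : 0 ≤ e) (he2 : e ≤ 2) :
    x ^ (3 / 4 : ℝ) ≤ 64 * (x / Real.log x ^ e) := by
  have hlog : 0 < Real.log x := Real.log_pos (by linarith)
  have h1 := logpow (by linarith : (1 : ℝ) ≤ x) he he2
  have h2 : 0 < Real.log x ^ e := Real.rpow_pos_of_pos hlog _
  rw [mul_div_assoc', le_div_iff₀ h2]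
  have h3 : x ^ (3 / 4 : ℝ) * x ^ (1 / 4 : ℝ) = x := by
    rw [← Real.rpow_add (by linarith)]
    norm_num
  have h4 : 0 < x ^ (3 / 4 : ℝ) := Real.rpow_pos_of_pos (by linarith) _
  nlinarith [mul_le_mul_of_nonneg_left h1 h4.le]

lemma cnt_le {R : ℝ} (hR : 0 ≤ R) : {n : ℕ | 1 ≤ n ∧ (n : ℝ) ≤ R}.Finite ∧
    ({n : ℕ | 1 ≤ n ∧ (n : ℝ) ≤ R}.ncard : ℝ) ≤ R := by
  have h : {n : ℕ | 1 ≤ n ∧ (n : ℝ) ≤ R} = (Finset.Icc 1 ⌊R⌋₊ : Set ℕ) := by
    ext n
    simp only [Set.mem_setOf_eq, Finset.coe_Icc, Set.mem_Icc, Nat.le_floor_iff hR]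
  rw [h]
  refine ⟨Finset.finite_toSet _, ?_⟩
  rw [Set.ncard_coe_finset, Nat.card_Icc]
  simpa using Nat.floor_le hR

end INVx

theorem t_INV : S_INV := by
  intro hP a b y c hc hc2
  obtain ⟨K, hK, hP⟩ := hP a b (1 / 8) c (by norm_num) hc hc2
  set M : ℝ := 2 ^ (a + b) * ((y : ℝ) + 1) with hM
  have hM0 : 0 ≤ M := by positivity
  refine ⟨K + 64 * M, by positivity, ?_⟩
  intro B hB h x hx
  obtain ⟨h1, h2⟩ := hP h x hx
  have hx2 : (2 : ℝ) ≤ x := by exact_mod_cast hx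
  have hx0 : (0 : ℝ) < x := by linarith
  have hlog : 0 < Real.log x := Real.log_pos (by linarith)
  set R : ℝ := M * (x : ℝ) ^ (3 / 4 : ℝ) with hR
  have hR0 : 0 ≤ R := by positivity
  -- the key step
  have key : ∀ n : ℕ, ¬ (n ∈ B ↔ 2 ^ a * 3 ^ b * n + h ∈ B) →
      BadP a b h (1 / 8 * Real.log x) n ∨ (n : ℝ) ≤ R := by
    intro n hn
    by_contra hcon
    rw [not_or, not_le] at hcon
    obtain ⟨hb, hbig⟩ := hcon
    unfold BadP at hb
    rw [not_not] at hb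
    obtain ⟨k, hk, hkk⟩ := hb
    apply hn
    have hZ : (2 : ℝ) ^ k ≤ (x : ℝ) ^ (3 / 4 : ℝ) := by
      have e1 : (2 : ℝ) ^ k ≤ Real.exp k := by
        have := Real.add_one_le_exp (1 : ℝ)
        calc (2 : ℝ) ^ k ≤ (Real.exp 1) ^ k := pow_le_pow_left₀ (by norm_num) (by linarith) k
          _ = Real.exp k := by rw [← Real.exp_nat_mul, mul_one]
      have e2 : Real.exp k ≤ (x : ℝ) ^ (3 / 4 : ℝ) := by
        rw [Real.rpow_def_of_pos hx0]
        apply Real.exp_le_exp.2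
        nlinarith
      exact e1.trans e2
    have hj : ∀ j : ℕ, j ≤ k + (a + b) → (2 : ℝ) ^ j ≤ 2 ^ (a + b) * (x : ℝ) ^ (3 / 4 : ℝ) := by
      intro j hj
      calc (2 : ℝ) ^ j ≤ 2 ^ (k + (a + b)) := pow_le_pow_right₀ (by norm_num) hj
        _ = 2 ^ (a + b) * 2 ^ k := by rw [pow_add]; ring
        _ ≤ _ := mul_le_mul_of_nonneg_left hZ (by positivity)
    have hbig' : (2 : ℝ) ^ (a + b) * ((y : ℝ) + 1) * (x : ℝ) ^ (3 / 4 : ℝ) < (n : ℝ) := by
      rw [← hM, ← hR]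
      exact hbig
    have hmn : ((n : ℕ) : ℝ) ≤ ((2 ^ a * 3 ^ b * n + h : ℕ) : ℝ) := by
      have : n ≤ 2 ^ a * 3 ^ b * n + h := by
        have h3 : 1 ≤ 2 ^ a * 3 ^ b := Nat.one_le_iff_ne_zero.2 (by positivity)
        nlinarith
      exact_mod_cast this
    rw [INVx.inv hB (k + b) n fun i hi => INVx.big (s := 0) le_rfl hbig' (hj i (by omega)) rfl,
      INVx.inv hB (k + a) (2 ^ a * 3 ^ b * n + h) fun i hi =>
        INVx.big (s := 0) hmn hbig' (hj i (by omega)) rfl, hkk]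
  obtain ⟨hfin, hcard⟩ := INVx.cnt_le hR0
  have hsq : (1 : ℝ) ≤ Real.sqrt (h + 1) := by
    rw [Real.one_le_sqrt]
    have : (0 : ℝ) ≤ h := Nat.cast_nonneg _
    linarith
  refine ⟨?_, ?_⟩
  · have hsub : {n : ℕ | 1 ≤ n ∧ n ≤ x ∧ ¬ (n ∈ B ↔ 2 ^ a * 3 ^ b * n + h ∈ B)} ⊆
        {n : ℕ | 1 ≤ n ∧ n ≤ x ∧ BadP a b h (1 / 8 * Real.log x) n} ∪
          {n : ℕ | 1 ≤ n ∧ (n : ℝ) ≤ R} := by
      rintro n ⟨hn1, hn2, hn3⟩
      rcases key n hn3 with h4 | h4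
      · exact Or.inl ⟨hn1, hn2, h4⟩
      · exact Or.inr ⟨hn1, h4⟩
    have hf1 : {n : ℕ | 1 ≤ n ∧ n ≤ x ∧ BadP a b h (1 / 8 * Real.log x) n}.Finite :=
      (Set.finite_Icc 1 x).subset fun n hn => ⟨hn.1, hn.2.1⟩
    have h5 : ({n : ℕ | 1 ≤ n ∧ n ≤ x ∧ ¬ (n ∈ B ↔ 2 ^ a * 3 ^ b * n + h ∈ B)}.ncard : ℝ) ≤
        ({n : ℕ | 1 ≤ n ∧ n ≤ x ∧ BadP a b h (1 / 8 * Real.log x) n}.ncard : ℝ) +
          ({n : ℕ | 1 ≤ n ∧ (n : ℝ) ≤ R}.ncard : ℝ) := by
      exact_mod_cast (Set.ncard_le_ncard hsub (hf1.union hfin)).trans (Set.ncard_union_le _ _)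
    have h6 := INVx.quarter hx2 hc.le (by linarith : c ≤ 2)
    have h7 : 0 ≤ (x : ℝ) / Real.log x ^ c := by positivity
    calc _ ≤ K * Real.sqrt (h + 1) * x / Real.log x ^ c + R := h5.trans (add_le_add h1 hcard)
      _ ≤ K * Real.sqrt (h + 1) * x / Real.log x ^ c +
          64 * M * Real.sqrt (h + 1) * (x / Real.log x ^ c) := by
        have h8 : R ≤ 64 * M * (x / Real.log x ^ c) := by
          rw [hR]
          nlinarith [mul_le_mul_of_nonneg_left h6 hM0]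
        have h9 : 64 * M * (x / Real.log x ^ c) ≤
            64 * M * (x / Real.log x ^ c) * Real.sqrt (h + 1) :=
          le_mul_of_one_le_right (by positivity) hsq
        linarith
      _ = _ := by ring
  · have hsub : {p : ℕ | p.Prime ∧ p ≤ x ∧ ¬ (p ∈ B ↔ 2 ^ a * 3 ^ b * p + h ∈ B)} ⊆
        {p : ℕ | p.Prime ∧ p ≤ x ∧ BadP a b h (1 / 8 * Real.log x) p} ∪
          {n : ℕ | 1 ≤ n ∧ (n : ℝ) ≤ R} := by
      rintro n ⟨hn1, hn2, hn3⟩
      rcases key n hn3 with h4 | h4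
      · exact Or.inl ⟨hn1, hn2, h4⟩
      · exact Or.inr ⟨hn1.one_lt.le, h4⟩
    have hf1 : {p : ℕ | p.Prime ∧ p ≤ x ∧ BadP a b h (1 / 8 * Real.log x) p}.Finite :=
      (Set.finite_Iic x).subset fun n hn => hn.2.1
    have h5 : ({p : ℕ | p.Prime ∧ p ≤ x ∧ ¬ (p ∈ B ↔ 2 ^ a * 3 ^ b * p + h ∈ B)}.ncard : ℝ) ≤
        ({p : ℕ | p.Prime ∧ p ≤ x ∧ BadP a b h (1 / 8 * Real.log x) p}.ncard : ℝ) +
          ({n : ℕ | 1 ≤ n ∧ (n : ℝ) ≤ R}.ncard : ℝ) := by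
      exact_mod_cast (Set.ncard_le_ncard hsub (hf1.union hfin)).trans (Set.ncard_union_le _ _)
    have h6 := INVx.quarter hx2 (by linarith : (0 : ℝ) ≤ c + 1) (by linarith : c + 1 ≤ 2)
    have h10 : Real.log x ^ (c + 1) = Real.log x ^ c * Real.log x := by
      rw [Real.rpow_add hlog, Real.rpow_one]
    have h7 : 0 ≤ (x : ℝ) / Real.log x ^ (c + 1) := by positivity
    calc _ ≤ K * Real.sqrt (h + 1) * x / Real.log x ^ c / Real.log x + R :=
          h5.trans (add_le_add h2 hcard)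
      _ ≤ K * Real.sqrt (h + 1) * x / Real.log x ^ c / Real.log x +
          64 * M * Real.sqrt (h + 1) * (x / Real.log x ^ (c + 1)) := by
        have h8 : R ≤ 64 * M * (x / Real.log x ^ (c + 1)) := by
          rw [hR]
          nlinarith [mul_le_mul_of_nonneg_left h6 hM0]
        have h9 : 64 * M * (x / Real.log x ^ (c + 1)) ≤
            64 * M * (x / Real.log x ^ (c + 1)) * Real.sqrt (h + 1) :=
          le_mul_of_one_le_right (by positivity) hsq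
        linarith
      _ = _ := by
        rw [h10]
        field_simp

end

end COA
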