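import Mathlib
import Pool.Agent.Lib_helper3.Collatz

set_option autoImplicit false

/-!
# Coalescence of Collatz trajectories: definitions and statements

`T` is the shortcut map on `ℤ`. A pair `(z, y)` with `y = 3 ^ e z + D` is described by the state
`s = (e, D)`. If `z` is a random 2-adic integer, the parity of `z` is a fair coin, and the state after
one step of both trajectories is `step s c`, where `c` is `true` if `z` is odd: the pair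
`(T z, T y)`, in this order or (only if `e = 0`, `D` and `z` are odd) in the other order, is again
`(z', 3 ^ e' z' + D')` with `z' = nx s z`, `(e', D') = step s c`. The state `(0, 0)` means that the
trajectories have met. `f t s` is the proportion of the words of length `t` which do not lead from
`s` to `(0, 0)`. The main estimate is `f t s ≤ C (1 + e + sqrt |D|) t ^ (-c)` for every `c < 1 / 2`.
-/

namespace COA

open Filter Topology Finset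

noncomputable section

/-- The shortcut map on the integers. -/
def T (z : ℤ) : ℤ := if z % 2 = 0 then z / 2 else (3 * z + 1) / 2

/-- The number of odd terms among the first `t` terms of the trajectory of `z` under `T`. -/
def od (t : ℕ) (z : ℤ) : ℕ := ((range t).filter (fun j => T^[j] z % 2 = 1)).card

/-- The next state; `c = true` if the first element of the pair is odd. -/
def step (s : ℕ × ℤ) (c : Bool) : ℕ × ℤ :=
  if s.2 % 2 = 0 then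
    (if c then (s.1, (3 * s.2 + 1 - 3 ^ s.1) / 2) else (s.1, s.2 / 2))
  else
    (if c then (if s.1 = 0 then (1, (1 - 3 * s.2) / 2) else (s.1 - 1, (s.2 - 3 ^ (s.1 - 1)) / 2))
      else (s.1 + 1, (3 * s.2 + 1) / 2))

/-- The first element of the next pair. -/
def nx (s : ℕ × ℤ) (z : ℤ) : ℤ :=
  if s.1 = 0 ∧ s.2 % 2 = 1 ∧ z % 2 = 1 then (z + s.2) / 2 else T z

/-- The pair `(z, 3 ^ s.1 z + s.2)` has met after `t` steps. -/
def Mg : ℕ → ℤ → ℕ × ℤ → Prop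
  | 0, _, s => s = (0, 0)
  | t + 1, z, s => Mg t (nx s z) (step s (decide (z % 2 = 1)))

/-- The proportion of the words of length `t` which do not lead from `s` to `(0, 0)`. -/
def f : ℕ → ℕ × ℤ → ℝ
  | 0, s => if s = (0, 0) then 0 else 1
  | t + 1, s => (f t (step s false) + f t (step s true)) / 2

/-- The averaging operator. -/
def avg (g : ℕ × ℤ → ℝ) (s : ℕ × ℤ) : ℝ := (g (step s false) + g (step s true)) / 2

/-- The 2-adic valuation of `3 ^ e - 1` (`0` for `e = 0`). -/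
def vv (e : ℕ) : ℕ := padicValNat 2 (3 ^ e - 1)

/-- The expected holding time: the mean number of steps until `D` is odd (`e ≥ 1`). -/
def H (s : ℕ × ℤ) : ℝ :=
  if s.1 = 0 then 0 else if (2 : ℤ) ^ vv s.1 ∣ s.2 then (vv s.1 : ℝ) + 1
    else (padicValInt 2 s.2 : ℝ)

/-- The size of the state. -/
def W (s : ℕ × ℤ) : ℝ :=
  if 0 ≤ s.2 then Real.sqrt (s.2 : ℝ) else Real.sqrt (-(s.2 : ℝ) / 3 ^ s.1)

/-- A function which is superharmonic outside a finite set. -/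
def U (s : ℕ × ℤ) : ℝ :=
  s.1 + 200000 * (1 - (49 / 50 : ℝ) ^ s.1) + 2 / 5 * (19 / 20 : ℝ) ^ s.1 * H s +
    (19 / 20 : ℝ) ^ s.1 * W s

/-! ### The chain of states -/

/-- FPR (60 lines). Basic facts on `f`. PROOF. Induction on `t`; `step (0, 0) c = (0, 0)`;
`f (t + 1) s ≤ f t s`: for `t = 0` as `f 1 s ≤ 1`, and `f 1 (0, 0) = 0`. The last part: induction on
`w`: `f (t + 1) s = (f t s₀ + f t s₁) / 2` where one of the two is at most `1 - (1/2)^t` and the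
other at most `1`. -/
def S_FPR : Prop := (∀ t s, 0 ≤ f t s ∧ f t s ≤ 1) ∧ (∀ t, f t (0, 0) = 0) ∧
  (∀ t s, f (t + 1) s ≤ f t s) ∧
  ∀ (w : List Bool) (s : ℕ × ℤ), w.foldl step s = (0, 0) → f w.length s ≤ 1 - (1 / 2 : ℝ) ^ w.length

/-- MRG (150 lines). Every state leads to `(0, 0)` by some word. PROOF. (1) From every `(e, D)` one
reaches some `(0, d)`: induction on `e`. For `e ≥ 1`: `D = 0`: use `true`, the new
`D = (1 - 3^e)/2` is not `0`; `D ≠ 0` even: use `false` (`D/2`), induction on `|D|`, until `D` is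
odd; `D` odd: use `true`, `e` becomes `e - 1`. (2) From `(0, d)` to `(0, 0)`: strong induction on
`|d|`. `d = 0`: the empty word. `d ≠ 0` even: `false`, `d/2`. `d > 0` odd: `false` gives `(1, D₁)`,
`D₁ = (3d+1)/2 > 0`; halve with `false` until it is odd: `(1, D₂)`, `0 < D₂ ≤ D₁` odd; then `true`
gives `(0, (D₂ - 1)/2)` and `0 ≤ (D₂ - 1)/2 ≤ (3d - 1)/4 < d`. `d < 0` odd: `true` gives
`(1, (1 - 3d)/2)` with `(1 - 3d)/2 = (3|d| + 1)/2 > 0` and one continues in the same way. -/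
def S_MRG : Prop := ∀ s : ℕ × ℤ, ∃ w : List Bool, w.foldl step s = (0, 0)

/-- ABS (80 lines). The potential argument. PROOF. Induction on `t`, `β = 1 - 1/(2M)`. `t = 0`:
`f 0 s ≤ 1`. Step: for `s = (0,0)` the left side is `0`; if `c ≤ U s` then `f ≤ 1 ≤ U s / c`;
otherwise `f (t+1) s = avg (f t) s ≤ avg U s / c + (1 + avg V s / M) β^t ≤
U s / c + (1 + (V s - 1)/M) β^t` and `1 + (V s - 1)/M ≤ (1 + V s / M) β` because `V s ≤ M`. -/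
def S_ABS : Prop := S_FPR → ∀ (U V : ℕ × ℤ → ℝ) (c M : ℝ), 0 < c → 1 ≤ M → (∀ s, 0 ≤ U s) →
  (∀ s, 0 ≤ V s) → (∀ s, s ≠ (0, 0) → avg U s ≤ U s) →
  (∀ s, s ≠ (0, 0) → U s < c → V s ≤ M ∧ avg V s + 1 ≤ V s) →
  ∀ t s, f t s ≤ U s / c + (1 + V s / M) * (1 - 1 / (2 * M)) ^ t

/-- HLD (200 lines). The holding time. PROOF. Let `e ≥ 1`, `v = vv e ≥ 1`, `3^e - 1 = 2^v g`, `g`
odd. `2^v ≤ 3^e - 1 ≤ 2^(2e-1)` gives `v + 1 ≤ 2e`; if `2^v ∤ D` then `D ≠ 0` and `v₂(D) < v`.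
`D` even, `e` does not change: if `1 ≤ v₂(D) = j < v`: `D/2` and `(3D + 1 - 3^e)/2 = (3D - 2^v g)/2`
both have the valuation `j - 1`. If `2^v ∣ D` and `2^(v+1) ∣ D` (or `D = 0`): `2^v ∣ D/2`, so
`H = v + 1`, and `(3D - 2^v g)/2` has the valuation `v - 1`; if `v₂(D) = v`: `D/2` has the valuation
`v - 1` and `(3D - 2^v g)/2` is divisible by `2^v` (odd minus odd), so `H = v + 1`: the average is
`v = H s - 1` in both cases. `D` odd: `v₂(D) = 0` and `2^v ∤ D`. The sum: `v₂(3^e - 1) = 1` for odd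
`e` and `2 + v₂(e)` for even `e ≥ 2` (`padicValNat.pow_two_sub_pow` or lifting the exponent), and
`∑_(e ≤ N) v₂(e) = v₂(N!) ≤ N` (`sub_one_mul_padicValNat_factorial`). -/
def S_HLD : Prop := (∀ s, 0 ≤ H s ∧ H s ≤ 2 * s.1 ∧ H s ≤ vv s.1 + 1) ∧
  (∀ s : ℕ × ℤ, 1 ≤ s.1 → s.2 % 2 = 0 → avg H s = H s - 1) ∧
  (∀ s : ℕ × ℤ, s.2 % 2 = 1 → H s = 0) ∧
  ∀ N : ℕ, ∑ e ∈ range (N + 1), (vv e : ℝ) ≤ 4 * N

/-- WDR (250 lines). The size of the state. PROOF. With `√(1/2) ≤ 0.70711`, `√(3/2) ≤ 1.22475`,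
`√(a + b) ≤ √a + √b`. Write `W = W s`. `D` even, `e ≥ 1`: `false`: `W/√2`. `true`,
`D' = (3D + 1 - 3^e)/2`: if `D ≥ 0` and `D' ≥ 0`: `D' ≤ (3D+1)/2`, so at most `√(3/2) W + √(1/2)`;
`D ≥ 0 > D'`: `|D'|/3^e ≤ 1/2`; `D < 0`: `|D'|/3^e ≤ (3/2)(|D|/3^e) + 1/2`. `D` odd, `e ≥ 1`:
`false`, `(e + 1, (3D+1)/2)`: at most `√(3/2) W + √(1/2)` if `D > 0`, at most `W/√2` if `D < 0`
(`|D'|/3^(e+1) ≤ |D|/(2·3^e)`); `true`, `(e - 1, (D - 3^(e-1))/2)`: if `D > 0` at most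
`max (W/√2) (√(1/2))` (the second if `D' < 0`), if `D < 0` exactly
`|D'|/3^(e-1) = (3/2)(|D|/3^e) + 1/2`. So the sum in the third part is for `D > 0` at most
`(0.95·1.22475 + 0.70711/0.95)/2 W + ..`, for `D < 0` at most
`(0.95·0.70711 + 1.22475/0.95)/2 W + ..`, `≤ 0.981 W + 0.75`. `e = 0`: `W = √|D|`; even: `D/2`,
`3D/2`; odd: `(1, (3D+1)/2)` and `(1, (1-3D)/2)`: one of the two is positive and at most
`(3|D| + 1)/2`, the other is negative with `|D'|/3 ≤ |D|/2`. -/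
def S_WDR : Prop := (∀ s : ℕ × ℤ, 0 ≤ W s ∧ W s ≤ Real.sqrt |(s.2 : ℝ)|) ∧
  (∀ s : ℕ × ℤ, 1 ≤ s.1 → s.2 % 2 = 0 → avg W s ≤ 966 / 1000 * W s + 36 / 100) ∧
  (∀ s : ℕ × ℤ, 1 ≤ s.1 → s.2 % 2 = 1 →
    (19 / 20 * W (step s false) + 20 / 19 * W (step s true)) / 2 ≤
      981 / 1000 * W s + 75 / 100) ∧
  (∀ s : ℕ × ℤ, s.1 = 0 → W s = Real.sqrt |(s.2 : ℝ)|) ∧
  (∀ s : ℕ × ℤ, s.1 = 0 → s.2 % 2 = 0 → avg W s ≤ 966 / 1000 * W s) ∧
  (∀ s : ℕ × ℤ, s.1 = 0 → s.2 % 2 = 1 → avg W s ≤ 966 / 1000 * W s + 36 / 100)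

/-- UDR (200 lines). The drift of `U`. PROOF. Let `ρ = 19/20`, `r = 49/50`. `e ≥ 1`, `D` even: only
`H` and `W` change: `(2/5) ρ^e (-1) + ρ^e (-0.034 W + 0.36) ≤ 0`. `e ≥ 1`, `D` odd: `H s = 0`; the
first two terms change by `-100000 r^(e-1) (1-r)^2 = -40 r^(e-1)`; the third by at most
`(2/5) ρ^e (ρ·2(e+1) + ρ⁻¹·2(e-1))/2 ≤ ρ^e (0.802 e)`, the fourth by at most `0.75 ρ^e`; and
`ρ^e (0.802 e + 0.75) ≤ 40 r^(e-1)` because `(r/ρ)^e ≥ 1 + e (r/ρ - 1) ≥ 1 + 0.0315 e`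
(`one_add_mul_le_pow`). `e = 0`, `D` even, `D ≠ 0`: only `W` changes, by at most
`-0.034 √|D| ≤ -0.034 √2 ≤ -1/25`. `e = 0`, `D` odd: the first two terms grow by `4001`, the third
by at most `(2/5) ρ · 2`, the fourth by at most `ρ (0.966 W + 0.36) - W ≤ -0.08 W + 0.342`.
Upper bound: `(2/5) ρ^e 2e ≤ 20`. -/
def S_UDR : Prop := S_HLD → S_WDR → (∀ s : ℕ × ℤ, (s.1 : ℝ) ≤ U s) ∧ U (0, 0) = 0 ∧
  (∀ s : ℕ × ℤ, U s ≤ s.1 + 200020 + Real.sqrt |(s.2 : ℝ)|) ∧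
  (∀ s : ℕ × ℤ, 1 ≤ s.1 → avg U s ≤ U s) ∧
  (∀ s : ℕ × ℤ, s.1 = 0 → s.2 % 2 = 0 → s.2 ≠ 0 → avg U s ≤ U s - 1 / 25) ∧
  (∀ s : ℕ × ℤ, s.1 = 0 → s.2 % 2 = 1 → avg U s ≤ U s + 5000) ∧
  (∀ s : ℕ × ℤ, s.1 = 0 → s.2 % 2 = 1 → 10 ^ 10 ≤ |s.2| → avg U s ≤ U s - 1 / 25)

/-- The function `U` corrected on the finite set: superharmonic outside `(0, 0)`. -/
def HasUt : Prop := ∃ (Ut : ℕ × ℤ → ℝ) (C θ : ℝ), 0 < θ ∧ θ ≤ 1 ∧ 0 ≤ C ∧
  (∀ s : ℕ × ℤ, (s.1 : ℝ) ≤ Ut s) ∧ (∀ s : ℕ × ℤ, Ut s ≤ s.1 + C + Real.sqrt |(s.2 : ℝ)|) ∧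
  (∀ s : ℕ × ℤ, s ≠ (0, 0) → avg Ut s ≤ Ut s) ∧
  (∀ s : ℕ × ℤ, s ≠ (0, 0) → s.1 = 0 → avg Ut s ≤ Ut s - θ)

/-- UT (120 lines). PROOF. Let `F` be the finite set of the `(0, D)`, `D` odd, `|D| < 10^10`. By MRG
and FPR there are `τ` and `η > 0` with `f τ s ≤ 1 - η` for `s ∈ F` (maximum of the lengths of the
words, `f` is antitone in `t`, `η = 2^(-τ)`). `Φ s = ∑_(j < τ) f j s`: `avg Φ s = Φ s - f 0 s + f τ s`,
so for `s ≠ (0, 0)` `avg Φ s ≤ Φ s`, and `≤ Φ s - η` on `F`. `Ut = U + (5001/η) Φ`, `θ = 1/25`,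
`C = 200020 + 5001 τ / η`. (The existence of `τ`, `η` for a finite set: `Set.Finite` induction or
`Finset.sup` of the lengths.) -/
def S_UT : Prop := S_FPR → S_MRG → ((∀ s : ℕ × ℤ, (s.1 : ℝ) ≤ U s) ∧ U (0, 0) = 0 ∧
  (∀ s : ℕ × ℤ, U s ≤ s.1 + 200020 + Real.sqrt |(s.2 : ℝ)|) ∧
  (∀ s : ℕ × ℤ, 1 ≤ s.1 → avg U s ≤ U s) ∧
  (∀ s : ℕ × ℤ, s.1 = 0 → s.2 % 2 = 0 → s.2 ≠ 0 → avg U s ≤ U s - 1 / 25) ∧
  (∀ s : ℕ × ℤ, s.1 = 0 → s.2 % 2 = 1 → avg U s ≤ U s + 5000) ∧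
  (∀ s : ℕ × ℤ, s.1 = 0 → s.2 % 2 = 1 → 10 ^ 10 ≤ |s.2| → avg U s ≤ U s - 1 / 25)) → HasUt

/-- The main estimate. -/
def Main : Prop := ∀ c : ℝ, 0 < c → c < 1 / 2 → ∃ C : ℝ, 0 ≤ C ∧ ∀ t : ℕ, 1 ≤ t →
  ∀ s : ℕ × ℤ, f t s ≤ C * (1 + s.1 + Real.sqrt |(s.2 : ℝ)|) * (t : ℝ) ^ (-c)

/-- VCN (300 lines, KEY). PROOF. Let `N = ⌈t^c⌉ ≥ 1`, `g j = 2 + (vv (j+1) + vv (j-1))/2`,
`b e = ∑_(1 ≤ j ≤ N) 2 (g j) min e j`, `G = ∑_(1 ≤ j ≤ N) 2 g j ≤ 16 N` (HLD), `CN = (G + 3)/θ`,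
`V s = b s.1 + H s + CN (Ut s)`. Then `V ≥ 0`; if `Ut s < N` then `s.1 < N` and
`V s ≤ 16 N² + 2N + CN N ≤ M := (40/θ) N²`. Drift on `Ut s < N`, `s ≠ (0,0)`: `e ≥ 1`, `D` even: `b`
is unchanged, `avg H = H - 1`, `avg Ut ≤ Ut`. `1 ≤ e < N`, `D` odd:
`(b (e+1) + b (e-1))/2 - b e = - g e` (the second difference of `min e j` is `-1` for `j = e` and `0`
otherwise) and `avg H ≤ (vv (e+1) + 1 + vv (e-1) + 1)/2 = g e - 1`. `e = 0`, `D` even: `b`, `H`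
unchanged (`0`), `CN θ ≥ 1`. `e = 0`, `D` odd: `b` grows by `b 1 = G`, `avg H ≤ 2`,
`CN θ = G + 3`. By ABS with `c := N`: `f t s ≤ Ut s / N + 2 exp (-t/(2M))` if `Ut s < N`, and
trivially otherwise; `t/(2M) ≥ κ t^(1-2c)` and `exp (-κ t^(1-2c)) ≤ C t^(-c)` for `t ≥ 1`. -/
def S_VCN : Prop := S_FPR → S_ABS → S_HLD → HasUt → Main

/-! ### Words and residues -/

/-- CNT (150 lines). PROOF. Induction on `t`. Periodicity: `z + 2^(t+1) m` has the parity of `z`, and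
`nx s (z + 2^(t+1) m) = nx s z + 2^t m'` with `m' = m` or `3 m`. Count: the residues modulo
`2^(t+1)` of parity `c` are the `2 r' + c`, `r' < 2^t`, and `nx s (2r' + c)` is `r'`, `3 r' + 2` or
`r' + (1 + D)/2`: modulo `2^t` it runs through all residues once. -/
def S_CNT : Prop := (∀ (t : ℕ) (z m : ℤ) (s : ℕ × ℤ), Mg t (z + 2 ^ t * m) s ↔ Mg t z s) ∧
  ∀ (t : ℕ) (s : ℕ × ℤ), ({r : ℕ | r < 2 ^ t ∧ ¬ Mg t (r : ℤ) s}.ncard : ℝ) = 2 ^ t * f t s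

/-- COR (120 lines). PROOF. Induction on `t`, `y = 3^e z + D`. `D` even: `z`, `y` have the same
parity and `T y = 3^e (T z) + D'`. `D` odd, `z` even: `T z = z/2`,
`T y = (3y+1)/2 = 3^(e+1) (z/2) + (3D+1)/2`. `D` odd, `z` odd, `e ≥ 1`: `T z = (3z+1)/2`,
`T y = y/2 = 3^(e-1) (3z+1)/2 + (D - 3^(e-1))/2`. `D`, `z` odd, `e = 0`: `nx s z = y/2 = T y`,
`3 (T y) + (1 - 3D)/2 = (3z+1)/2 = T z` (roles exchanged). -/
def S_COR : Prop := ∀ (t : ℕ) (z : ℤ) (s : ℕ × ℤ), Mg t z s →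
  T^[t] z = T^[t] (3 ^ s.1 * z + s.2) ∧ od t z = s.1 + od t (3 ^ s.1 * z + s.2)

/-- TRN (200 lines). PROOF. `T` restricted to `ℕ` is `short`. `e = b + o` with `o` the number of odd
terms among the first `a` terms of the trajectory of `h` under `short`, `D = short^[a] h`: for
`y = 2^a 3^b n + h` one has `T^[a] y = 3^(b+o) n + D` and the first `a` terms of `y` and of `h` have
the same parities (induction on `a`). By COR `T^[t] n = T^[t+a] y`, `od t n = b + od (t+a) y`; and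
`collatz^[t + od t n] n = short^[t] n`. So `k = t + od (t+a) y - ..`, precisely
`k + b = t + od t n`, `k + a = t + a + od (t+a) y`. The second part (`a = b = 0`, `h = 1`):
`k = t + od t n` for both, and it depends only on `n`. -/
def S_TRN : Prop := S_COR → (∀ a b h : ℕ, ∃ e D : ℕ, e ≤ a + b ∧ D ≤ 2 ^ a * (h + 1) ∧
  ∀ t n : ℕ, Mg t (n : ℤ) (e, (D : ℤ)) → ∃ k : ℕ, k ≤ 2 * t ∧
    Pool.Agent.LibHelper3.collatz^[k + b] n = Pool.Agent.LibHelper3.collatz^[k + a] (2 ^ a * 3 ^ b * n + h)) ∧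
  ∀ t n I : ℕ, (∀ i < I, Mg t ((n + i : ℕ) : ℤ) (0, 1)) → ∃ k : ℕ, k ≤ 2 * t ∧
    ∀ i ≤ I, Pool.Agent.LibHelper3.collatz^[k] (n + i) = Pool.Agent.LibHelper3.collatz^[k] n

end

end COA
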