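import Mathlib
import Pool.Agent.COA.St2
import Pool.Agent.Lib_helper3.Gau.MinPos
import Pool.Agent.Lib_helper3.Mix.Mixing

set_option autoImplicit false

/-!
# The law of the orbit minimum on intervals
-/

namespace COA

open Filter Topology Finset
open Pool.Agent.LibHelper3 (collatz)

namespace LAWx

theorem oMin_mem (n : ℕ) : ∃ k, collatz^[k] n = oMin n := by
  have h : {m : ℕ | ∃ k, collatz^[k] n = m}.Nonempty := ⟨n, 0, rfl⟩
  exact Nat.sInf_mem h

theorem oMin_le (n k : ℕ) : oMin n ≤ collatz^[k] n := Nat.sInf_le ⟨k, rfl⟩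

theorem isLeast_iff (n m : ℕ) : IsLeast (Set.range fun k => collatz^[k] n) m ↔ oMin n = m := by
  constructor
  · rintro ⟨⟨k, hk⟩, h2⟩
    have hk' : collatz^[k] n = m := hk
    apply le_antisymm
    · rw [← hk']; exact oMin_le n k
    · obtain ⟨j, hj⟩ := oMin_mem n
      rw [← hj]
      exact h2 ⟨j, rfl⟩
  · rintro rfl
    obtain ⟨j, hj⟩ := oMin_mem n
    refine ⟨⟨j, hj⟩, ?_⟩
    rintro _ ⟨k, rfl⟩
    exact oMin_le n k

/-- the minimum is the minimum of its own trajectory -/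
theorem oMin_oMin (n : ℕ) : oMin (oMin n) = oMin n := by
  apply le_antisymm
  · exact oMin_le (oMin n) 0
  · obtain ⟨j, hj⟩ := oMin_mem n
    obtain ⟨k, hk⟩ := oMin_mem (oMin n)
    rw [← hk]
    conv_rhs => rw [← hj]
    rw [← Function.iterate_add_apply]
    exact oMin_le n _

theorem not_three {n : ℕ} (h : ¬ 3 ∣ n) : ¬ 3 ∣ collatz n := by
  unfold collatz
  split_ifs with h2 <;> omega

theorem not_three_iter {n : ℕ} (h : ¬ 3 ∣ n) (k : ℕ) : ¬ 3 ∣ collatz^[k] n := by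
  induction k with
  | zero => exact h
  | succ k ih =>
    rw [Function.iterate_succ_apply']
    exact not_three ih

theorem pos_step {n : ℕ} (hn : 1 ≤ n) : 1 ≤ collatz n := by
  unfold collatz
  split_ifs with h <;> omega

theorem pos_iter {n : ℕ} (hn : 1 ≤ n) (k : ℕ) : 1 ≤ collatz^[k] n := by
  induction k with
  | zero => exact hn
  | succ k ih =>
    rw [Function.iterate_succ_apply']
    exact pos_step ih

/-- if some positive integer has orbit minimum different from `1`, there is such a minimum which is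
not divisible by `3` -/
theorem exists_min {n : ℕ} (hn : 1 ≤ n) (h1 : oMin n ≠ 1) :
    ∃ m, m ≠ 1 ∧ ¬ 3 ∣ m ∧ oMin m = m := by
  by_cases h3 : 3 ∣ oMin n
  · set m := oMin n with hm
    have hmm : oMin m = m := oMin_oMin n
    have hpos : 1 ≤ m := by
      obtain ⟨k, hk⟩ := oMin_mem n
      rw [hm, ← hk]
      exact pos_iter hn k
    have hodd : m % 2 ≠ 0 := by
      intro he
      have h4 := oMin_le m 1
      rw [hmm] at h4
      have h5 : collatz^[1] m = m / 2 := by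
        rw [Function.iterate_one]
        unfold collatz
        rw [if_pos he]
      rw [h5] at h4
      omega
    have hc : collatz m = 3 * m + 1 := by
      unfold collatz
      rw [if_neg hodd]
    have hc3 : ¬ 3 ∣ collatz m := by
      rw [hc]; omega
    refine ⟨oMin (collatz m), ?_, ?_, oMin_oMin _⟩
    · obtain ⟨k, hk⟩ := oMin_mem (collatz m)
      have h6 : oMin m ≤ collatz^[k] (collatz m) := by
        rw [← Function.iterate_succ_apply]
        exact oMin_le m _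
      rw [hk, hmm] at h6
      obtain ⟨a, ha⟩ := h3
      omega
    · obtain ⟨k, hk⟩ := oMin_mem (collatz m)
      rw [← hk]
      exact not_three_iter hc3 k
  · exact ⟨oMin n, h1, h3, oMin_oMin n⟩

theorem fin_set (x : ℕ) (P : ℕ → Prop) : {n : ℕ | 1 ≤ n ∧ n ≤ x ∧ P n}.Finite :=
  (Set.finite_Iic x).subset (fun _ hn => hn.2.1)

/-- `K x / (log x)^c` divided by `x` tends to zero -/
theorem err_tendsto (K c : ℝ) (hc : 0 < c) :
    Tendsto (fun x : ℕ => K / Real.log x ^ c) atTop (𝓝 0) := by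
  have h1 : Tendsto (fun x : ℕ => Real.log x ^ c) atTop atTop :=
    (tendsto_rpow_atTop hc).comp (Real.tendsto_log_atTop.comp tendsto_natCast_atTop_atTop)
  exact h1.const_div_atTop K

theorem squeeze {δ K c : ℝ} (hc : 0 < c) (P : ℕ → Prop) (Q E : ℕ → ℕ → Prop)
    (h1 : ∀ x n, P n → Q x n ∨ E x n) (h2 : ∀ x n, Q x n → P n ∨ E x n)
    (hE : ∀ x : ℕ, 2 ≤ x → ({n : ℕ | 1 ≤ n ∧ n ≤ x ∧ E x n}.ncard : ℝ) ≤ K * x / Real.log x ^ c)
    (hP : Tendsto (fun x : ℕ => ({n : ℕ | 1 ≤ n ∧ n ≤ x ∧ P n}.ncard : ℝ) / x) atTop (𝓝 δ)) :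
    Tendsto (fun x : ℕ => ({n : ℕ | 1 ≤ n ∧ n ≤ x ∧ Q x n}.ncard : ℝ) / x) atTop (𝓝 δ) := by
  have herr := err_tendsto K c hc
  have hlo : Tendsto (fun x : ℕ => ({n : ℕ | 1 ≤ n ∧ n ≤ x ∧ P n}.ncard : ℝ) / x -
      K / Real.log x ^ c) atTop (𝓝 δ) := by
    have := hP.sub herr
    rwa [sub_zero] at this
  have hhi : Tendsto (fun x : ℕ => ({n : ℕ | 1 ≤ n ∧ n ≤ x ∧ P n}.ncard : ℝ) / x +
      K / Real.log x ^ c) atTop (𝓝 δ) := by
    have := hP.add herr
    rwa [add_zero] at this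
  refine tendsto_of_tendsto_of_tendsto_of_le_of_le' hlo hhi ?_ ?_
  · filter_upwards [eventually_ge_atTop 2] with x hx
    have hx0 : (0 : ℝ) < x := by
      have : (2 : ℝ) ≤ x := by exact_mod_cast hx
      linarith
    have hsub : {n : ℕ | 1 ≤ n ∧ n ≤ x ∧ P n} ⊆
        {n : ℕ | 1 ≤ n ∧ n ≤ x ∧ Q x n} ∪ {n : ℕ | 1 ≤ n ∧ n ≤ x ∧ E x n} := by
      rintro n ⟨a, b, d⟩
      rcases h1 x n d with h | h
      · exact Or.inl ⟨a, b, h⟩
      · exact Or.inr ⟨a, b, h⟩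
    have hcard := (Set.ncard_le_ncard hsub ((fin_set x _).union (fin_set x _))).trans
      (Set.ncard_union_le _ _)
    have hcard' : ({n : ℕ | 1 ≤ n ∧ n ≤ x ∧ P n}.ncard : ℝ) ≤
        ({n : ℕ | 1 ≤ n ∧ n ≤ x ∧ Q x n}.ncard : ℝ) +
          ({n : ℕ | 1 ≤ n ∧ n ≤ x ∧ E x n}.ncard : ℝ) := by exact_mod_cast hcard
    have h3 := hE x hx
    have e : K / Real.log x ^ c = K * x / Real.log x ^ c / x := by
      field_simp
    rw [e, ← sub_div]
    apply div_le_div_of_nonneg_right _ hx0.le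
    linarith
  · filter_upwards [eventually_ge_atTop 2] with x hx
    have hx0 : (0 : ℝ) < x := by
      have : (2 : ℝ) ≤ x := by exact_mod_cast hx
      linarith
    have hsub : {n : ℕ | 1 ≤ n ∧ n ≤ x ∧ Q x n} ⊆
        {n : ℕ | 1 ≤ n ∧ n ≤ x ∧ P n} ∪ {n : ℕ | 1 ≤ n ∧ n ≤ x ∧ E x n} := by
      rintro n ⟨a, b, d⟩
      rcases h2 x n d with h | h
      · exact Or.inl ⟨a, b, h⟩
      · exact Or.inr ⟨a, b, h⟩
    have hcard := (Set.ncard_le_ncard hsub ((fin_set x _).union (fin_set x _))).trans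
      (Set.ncard_union_le _ _)
    have hcard' : ({n : ℕ | 1 ≤ n ∧ n ≤ x ∧ Q x n}.ncard : ℝ) ≤
        ({n : ℕ | 1 ≤ n ∧ n ≤ x ∧ P n}.ncard : ℝ) +
          ({n : ℕ | 1 ≤ n ∧ n ≤ x ∧ E x n}.ncard : ℝ) := by exact_mod_cast hcard
    have h3 := hE x hx
    have e : K / Real.log x ^ c = K * x / Real.log x ^ c / x := by
      field_simp
    rw [e, ← add_div]
    apply div_le_div_of_nonneg_right _ hx0.le
    linarith

theorem ncard_all (x : ℕ) : {n : ℕ | 1 ≤ n ∧ n ≤ x}.ncard = x := by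
  have e : {n : ℕ | 1 ≤ n ∧ n ≤ x} = ((Finset.Icc 1 x : Finset ℕ) : Set ℕ) := by
    ext n; simp
  rw [e, Set.ncard_coe_finset, Nat.card_Icc, Nat.add_sub_cancel]

theorem ncard_compl (x : ℕ) (P : ℕ → Prop) :
    ({n : ℕ | 1 ≤ n ∧ n ≤ x ∧ ¬ P n}.ncard : ℝ) = x - {n : ℕ | 1 ≤ n ∧ n ≤ x ∧ P n}.ncard := by
  have hd : Disjoint {n : ℕ | 1 ≤ n ∧ n ≤ x ∧ ¬ P n} {n : ℕ | 1 ≤ n ∧ n ≤ x ∧ P n} := by
    rw [Set.disjoint_left]
    rintro n ⟨_, _, h⟩ ⟨_, _, h'⟩
    exact h h'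
  have hu : {n : ℕ | 1 ≤ n ∧ n ≤ x ∧ ¬ P n} ∪ {n : ℕ | 1 ≤ n ∧ n ≤ x ∧ P n} =
      {n : ℕ | 1 ≤ n ∧ n ≤ x} := by
    ext n
    constructor
    · rintro (⟨a, b, _⟩ | ⟨a, b, _⟩) <;> exact ⟨a, b⟩
    · rintro ⟨a, b⟩
      by_cases h : P n
      · exact Or.inr ⟨a, b, h⟩
      · exact Or.inl ⟨a, b, h⟩
  have h := Set.ncard_union_eq hd (fin_set x _) (fin_set x _)
  rw [hu, ncard_all] at h
  have h' : (x : ℝ) = ({n : ℕ | 1 ≤ n ∧ n ≤ x ∧ ¬ P n}.ncard : ℝ) +
      ({n : ℕ | 1 ≤ n ∧ n ≤ x ∧ P n}.ncard : ℝ) := by exact_mod_cast h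
  linarith

theorem tendsto_compl {δ : ℝ} (P : ℕ → Prop)
    (hP : Tendsto (fun x : ℕ => ({n : ℕ | 1 ≤ n ∧ n ≤ x ∧ P n}.ncard : ℝ) / x) atTop (𝓝 δ)) :
    Tendsto (fun x : ℕ => ({n : ℕ | 1 ≤ n ∧ n ≤ x ∧ ¬ P n}.ncard : ℝ) / x) atTop (𝓝 (1 - δ)) := by
  refine (hP.const_sub 1).congr' ?_
  filter_upwards [eventually_gt_atTop 0] with x hx
  have hx0 : (x : ℝ) ≠ 0 := by exact_mod_cast hx.ne'
  rw [ncard_compl, sub_div, div_self hx0]

end LAWx

theorem t_LAW : S_LAW := by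
  intro hM
  obtain ⟨d, hd0, hsum, hd⟩ := ND.law Pool.Agent.LibHelper3.Mix.mixing
  have hd' : ∀ m, Tendsto (fun x : ℕ =>
      ({n : ℕ | 1 ≤ n ∧ n ≤ x ∧ oMin n = m}.ncard : ℝ) / x) atTop (𝓝 (d m)) := by
    intro m
    refine (hd m).congr fun x => ?_
    have e : {n : ℕ | 1 ≤ n ∧ n ≤ x ∧ IsLeast (Set.range fun k => collatz^[k] n) m} =
        {n : ℕ | 1 ≤ n ∧ n ≤ x ∧ oMin n = m} := by
      ext n
      constructor
      · rintro ⟨a, b, h⟩
        exact ⟨a, b, (LAWx.isLeast_iff n m).1 h⟩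
      · rintro ⟨a, b, h⟩
        exact ⟨a, b, (LAWx.isLeast_iff n m).2 h⟩
    rw [e]
  have hpos : ∀ m, 0 < d m ↔ ¬ 3 ∣ m ∧ oMin m = m := by
    intro m
    rw [Gau.minPos m (d m) (hd m)]
    refine and_congr_right fun _ => ?_
    constructor
    · intro h
      have e1 : oMin m ≤ m := LAWx.oMin_le m 0
      obtain ⟨k, hk⟩ := LAWx.oMin_mem m
      have := h k
      omega
    · intro h k
      have := LAWx.oMin_le m k
      omega
  refine ⟨d, hd0, hsum, hpos, ?_, ?_⟩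
  · constructor
    · intro h
      refine tendsto_nhds_unique (hd' 1) ?_
      refine (tendsto_const_nhds (x := (1 : ℝ))).congr' ?_
      filter_upwards [eventually_gt_atTop 0] with x hx
      have hx0 : (x : ℝ) ≠ 0 := by exact_mod_cast hx.ne'
      have e : {n : ℕ | 1 ≤ n ∧ n ≤ x ∧ oMin n = 1} = {n : ℕ | 1 ≤ n ∧ n ≤ x} := by
        ext n
        constructor
        · rintro ⟨a, b, _⟩; exact ⟨a, b⟩
        · rintro ⟨a, b⟩; exact ⟨a, b, h n a⟩
      rw [e, LAWx.ncard_all, div_self hx0]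
    · intro h1 n hn
      by_contra hne
      obtain ⟨m, hm1, hm3, hmm⟩ := LAWx.exists_min hn hne
      have h2 : 0 < d m := (hpos m).2 ⟨hm3, hmm⟩
      have h3 : ∑ i ∈ ({1, m} : Finset ℕ), d i ≤ 1 := sum_le_hasSum _ (fun i _ => hd0 i) hsum
      rw [Finset.sum_pair (Ne.symm hm1)] at h3
      linarith
  · intro c hc hc2
    obtain ⟨K, hK0, hK⟩ := hM c ((1 / 2 - c) / 2) hc (by linarith) (by linarith)
    have hE : ∀ x : ℕ, 2 ≤ x → ({n : ℕ | 1 ≤ n ∧ n ≤ x ∧ ∃ i : ℕ,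
        (i : ℝ) ≤ Real.log x ^ c ∧ (oMin (n + i) ≠ oMin n ∨ mTime (n + i) ≠ mTime n)}.ncard : ℝ) ≤
        K * x / Real.log x ^ ((1 / 2 - c) / 2) := fun x hx => (hK x hx).1
    have h00 : ∀ x : ℕ, ((0 : ℕ) : ℝ) ≤ Real.log x ^ c := fun x => by
      rw [Nat.cast_zero]
      exact Real.rpow_nonneg (Real.log_natCast_nonneg x) c
    constructor
    · intro m
      refine LAWx.squeeze (by linarith : (0 : ℝ) < (1 / 2 - c) / 2) (fun n => oMin n = m)
        (fun x n => ∀ i : ℕ, (i : ℝ) ≤ Real.log x ^ c → oMin (n + i) = m ∧ mTime (n + i) = mTime n)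
        _ ?_ ?_ hE (hd' m)
      · intro x n hP
        by_cases hB : ∃ i : ℕ, (i : ℝ) ≤ Real.log x ^ c ∧
            (oMin (n + i) ≠ oMin n ∨ mTime (n + i) ≠ mTime n)
        · exact Or.inr hB
        · left
          intro i hi
          push Not at hB
          obtain ⟨a, b⟩ := hB i hi
          exact ⟨a.trans hP, b⟩
      · intro x n hQ
        left
        exact (hQ 0 (h00 x)).1
    · have h1 := LAWx.tendsto_compl (fun n => oMin n = 1) (hd' 1)
      refine LAWx.squeeze (by linarith : (0 : ℝ) < (1 / 2 - c) / 2) (fun n => ¬ oMin n = 1)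
        (fun x n => ∀ i : ℕ, (i : ℝ) ≤ Real.log x ^ c → oMin (n + i) ≠ 1)
        _ ?_ ?_ hE h1
      · intro x n hP
        by_cases hB : ∃ i : ℕ, (i : ℝ) ≤ Real.log x ^ c ∧
            (oMin (n + i) ≠ oMin n ∨ mTime (n + i) ≠ mTime n)
        · exact Or.inr hB
        · left
          intro i hi
          push Not at hB
          obtain ⟨a, b⟩ := hB i hi
          rw [a]
          exact hP
      · intro x n hQ
        left
        exact hQ 0 (h00 x)

end COA
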