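import Pool.Agent.COA.St2

set_option autoImplicit false

/-!
# Coalescence of Collatz trajectories, module MAB: orbit minima of `n` and `2^a 3^b n + h`
-/

namespace COA

open Filter Topology Finset
open Pool.Agent.LibHelper3 (collatz)

noncomputable section

namespace MABx

lemma le_collatz (m : ℕ) : m ≤ 2 * collatz m := by
  unfold collatz
  split_ifs <;> omega

lemma le_iter (j m : ℕ) : m ≤ 2 ^ j * collatz^[j] m := by
  induction j generalizing m with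
  | zero => simp
  | succ j ih =>
    rw [Function.iterate_succ_apply, pow_succ]
    have h1 := le_collatz m
    have h2 := ih (collatz m)
    calc m ≤ 2 * collatz m := h1
      _ ≤ 2 * (2 ^ j * collatz^[j] (collatz m)) := Nat.mul_le_mul_left _ h2
      _ = 2 ^ j * 2 * collatz^[j] (collatz m) := by ring

lemma big {y j m : ℕ} {n Z W : ℝ} (hm : n ≤ m) (hn : W * ((y : ℝ) + 1) * Z < n)
    (hj : (2 : ℝ) ^ j ≤ W * Z) : y < collatz^[j] m := by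
  have h1 : (m : ℝ) ≤ 2 ^ j * (collatz^[j] m : ℕ) := by exact_mod_cast le_iter j m
  by_contra hcon
  rw [not_lt] at hcon
  have h2 : ((collatz^[j] m : ℕ) : ℝ) ≤ y + 1 := by
    have : ((collatz^[j] m : ℕ) : ℝ) ≤ y := by exact_mod_cast hcon
    linarith
  have h3 : (2 : ℝ) ^ j * (collatz^[j] m : ℕ) ≤ W * Z * (y + 1) :=
    mul_le_mul hj h2 (by positivity) (le_trans (by positivity) hj)
  nlinarith

/-- `(log x)^e ≤ (1/d)^2 x^(2 d)` for `0 ≤ e ≤ 2`. -/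
lemma logpow {x e d : ℝ} (hx : 1 ≤ x) (he : 0 ≤ e) (he2 : e ≤ 2) (hd : 0 < d) (hd1 : d ≤ 1) :
    Real.log x ^ e ≤ (1 / d) ^ 2 * x ^ (2 * d) := by
  have h0 : 0 ≤ Real.log x := Real.log_nonneg hx
  have h1 : Real.log x ≤ 1 / d * x ^ d := by
    have := Real.log_le_rpow_div (by linarith : (0 : ℝ) ≤ x) hd
    calc Real.log x ≤ x ^ d / d := this
      _ = 1 / d * x ^ d := by ring
  have h2 : (1 : ℝ) ≤ 1 / d * x ^ d := by
    have h3 := Real.one_le_rpow hx hd.le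
    have h4 : 1 ≤ 1 / d := by rw [le_div_iff₀ hd]; linarith
    nlinarith
  calc Real.log x ^ e ≤ (1 / d * x ^ d) ^ e := Real.rpow_le_rpow h0 h1 he
    _ ≤ (1 / d * x ^ d) ^ (2 : ℝ) := Real.rpow_le_rpow_of_exponent_le h2 he2
    _ = (1 / d) ^ 2 * x ^ (2 * d) := by
      rw [Real.mul_rpow (by positivity) (by positivity), ← Real.rpow_mul (by linarith),
        mul_comm d 2]
      norm_num

/-- `x^(1 - 2 d) ≤ (1/d)^2 x / (log x)^e`. -/
lemma save {x e d : ℝ} (hx : 2 ≤ x) (he : 0 ≤ e) (he2 : e ≤ 2) (hd : 0 < d) (hd1 : d ≤ 1) :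
    x ^ (1 - 2 * d) ≤ (1 / d) ^ 2 * (x / Real.log x ^ e) := by
  have hlog : 0 < Real.log x := Real.log_pos (by linarith)
  have h1 := logpow (by linarith : (1 : ℝ) ≤ x) he he2 hd hd1
  have h2 : 0 < Real.log x ^ e := Real.rpow_pos_of_pos hlog _
  rw [mul_div_assoc', le_div_iff₀ h2]
  have h3 : x ^ (1 - 2 * d) * x ^ (2 * d) = x := by
    rw [← Real.rpow_add (by linarith)]
    norm_num
  have h4 : 0 < x ^ (1 - 2 * d) := Real.rpow_pos_of_pos (by linarith) _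
  calc x ^ (1 - 2 * d) * Real.log x ^ e
      ≤ x ^ (1 - 2 * d) * ((1 / d) ^ 2 * x ^ (2 * d)) := mul_le_mul_of_nonneg_left h1 h4.le
    _ = (1 / d) ^ 2 * (x ^ (1 - 2 * d) * x ^ (2 * d)) := by ring
    _ = _ := by rw [h3]

lemma cnt_le {R : ℝ} (hR : 0 ≤ R) : {n : ℕ | 1 ≤ n ∧ (n : ℝ) ≤ R}.Finite ∧
    ({n : ℕ | 1 ≤ n ∧ (n : ℝ) ≤ R}.ncard : ℝ) ≤ R := by
  have h : {n : ℕ | 1 ≤ n ∧ (n : ℝ) ≤ R} = (Finset.Icc 1 ⌊R⌋₊ : Set ℕ) := by
    ext n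
    simp only [Set.mem_ofPred_eq, Finset.coe_Icc, Set.mem_Icc, Nat.le_floor_iff hR]
  rw [h]
  refine ⟨Finset.finite_toSet _, ?_⟩
  rw [Set.ncard_coe_finset, Nat.card_Icc]
  simpa using Nat.floor_le hR

lemma fin1 (x : ℕ) (Q : ℕ → Prop) : {n : ℕ | 1 ≤ n ∧ n ≤ x ∧ Q n}.Finite :=
  (Set.finite_Icc 1 x).subset fun _ hn => ⟨hn.1, hn.2.1⟩

lemma fin2 (x : ℕ) (Q : ℕ → Prop) : {p : ℕ | p.Prime ∧ p ≤ x ∧ Q p}.Finite :=
  (Set.finite_Iic x).subset fun _ hn => hn.2.1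

lemma few_mono {x : ℕ} {X X' : ℝ} {Q Q' : ℕ → Prop} (hx : 2 ≤ x) (h : Few x X Q) (hX : X ≤ X')
    (hQ : ∀ n, Q' n → Q n) : Few x X' Q' := by
  have hlog : 0 < Real.log x := Real.log_pos (by exact_mod_cast (by omega : 1 < x))
  refine ⟨?_, ?_⟩
  · refine le_trans ?_ (h.1.trans hX)
    have hs : {n : ℕ | 1 ≤ n ∧ n ≤ x ∧ Q' n} ⊆ {n : ℕ | 1 ≤ n ∧ n ≤ x ∧ Q n} :=
      fun n hn => ⟨hn.1, hn.2.1, hQ n hn.2.2⟩
    exact_mod_cast Set.ncard_le_ncard hs (fin1 x Q)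
  · refine le_trans ?_ (h.2.trans (div_le_div_of_nonneg_right hX hlog.le))
    have hs : {n : ℕ | n.Prime ∧ n ≤ x ∧ Q' n} ⊆ {n : ℕ | n.Prime ∧ n ≤ x ∧ Q n} :=
      fun n hn => ⟨hn.1, hn.2.1, hQ n hn.2.2⟩
    exact_mod_cast Set.ncard_le_ncard hs (fin2 x Q)

lemma few_or {x : ℕ} {X X' : ℝ} {Q Q' : ℕ → Prop} (h : Few x X Q) (h' : Few x X' Q') :
    Few x (X + X') (fun n => Q n ∨ Q' n) := by
  refine ⟨?_, ?_⟩
  · refine le_trans ?_ (add_le_add h.1 h'.1)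
    have hs : {n : ℕ | 1 ≤ n ∧ n ≤ x ∧ (Q n ∨ Q' n)} ⊆
        {n : ℕ | 1 ≤ n ∧ n ≤ x ∧ Q n} ∪ {n : ℕ | 1 ≤ n ∧ n ≤ x ∧ Q' n} := by
      rintro n ⟨h1, h2, h3 | h3⟩
      · exact Or.inl ⟨h1, h2, h3⟩
      · exact Or.inr ⟨h1, h2, h3⟩
    exact_mod_cast (Set.ncard_le_ncard hs ((fin1 x Q).union (fin1 x Q'))).trans
      (Set.ncard_union_le _ _)
  · rw [add_div]
    refine le_trans ?_ (add_le_add h.2 h'.2)
    have hs : {n : ℕ | n.Prime ∧ n ≤ x ∧ (Q n ∨ Q' n)} ⊆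
        {n : ℕ | n.Prime ∧ n ≤ x ∧ Q n} ∪ {n : ℕ | n.Prime ∧ n ≤ x ∧ Q' n} := by
      rintro n ⟨h1, h2, h3 | h3⟩
      · exact Or.inl ⟨h1, h2, h3⟩
      · exact Or.inr ⟨h1, h2, h3⟩
    exact_mod_cast (Set.ncard_le_ncard hs ((fin2 x Q).union (fin2 x Q'))).trans
      (Set.ncard_union_le _ _)

lemma few_small {x : ℕ} {M c : ℝ} (hx : 2 ≤ x) (hM : 0 ≤ M) (hc : 0 ≤ c) (hc1 : c ≤ 1) :
    Few x (64 * M * (x / Real.log x ^ c)) (fun n => (n : ℝ) ≤ M * (x : ℝ) ^ (3 / 4 : ℝ)) := by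
  have hx2 : (2 : ℝ) ≤ x := by exact_mod_cast hx
  have hlog : 0 < Real.log x := Real.log_pos (by linarith)
  have hR : 0 ≤ M * (x : ℝ) ^ (3 / 4 : ℝ) := by positivity
  obtain ⟨hf, hcard⟩ := cnt_le hR
  have h1 := save hx2 hc (by linarith : c ≤ 2) (by norm_num : (0 : ℝ) < 1 / 8) (by norm_num)
  have h2 := save hx2 (by linarith : (0 : ℝ) ≤ c + 1) (by linarith : c + 1 ≤ 2)
    (by norm_num : (0 : ℝ) < 1 / 8) (by norm_num)
  norm_num at h1 h2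
  refine ⟨?_, ?_⟩
  · refine le_trans ?_ (le_trans hcard ?_)
    · have hs : {n : ℕ | 1 ≤ n ∧ n ≤ x ∧ (n : ℝ) ≤ M * (x : ℝ) ^ (3 / 4 : ℝ)} ⊆
          {n : ℕ | 1 ≤ n ∧ (n : ℝ) ≤ M * (x : ℝ) ^ (3 / 4 : ℝ)} := fun n hn => ⟨hn.1, hn.2.2⟩
      exact_mod_cast Set.ncard_le_ncard hs hf
    · nlinarith [mul_le_mul_of_nonneg_left h1 hM]
  · refine le_trans ?_ (le_trans hcard ?_)
    · have hs : {n : ℕ | n.Prime ∧ n ≤ x ∧ (n : ℝ) ≤ M * (x : ℝ) ^ (3 / 4 : ℝ)} ⊆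
          {n : ℕ | 1 ≤ n ∧ (n : ℝ) ≤ M * (x : ℝ) ^ (3 / 4 : ℝ)} :=
        fun n hn => ⟨hn.1.one_lt.le, hn.2.2⟩
      exact_mod_cast Set.ncard_le_ncard hs hf
    · have h10 : Real.log x ^ (c + 1) = Real.log x ^ c * Real.log x := by
        rw [Real.rpow_add hlog, Real.rpow_one]
      have h11 : 64 * M * (x / Real.log x ^ c) / Real.log x =
          M * (64 * (x / Real.log x ^ (c + 1))) := by
        rw [h10]
        field_simp
      rw [h11]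
      exact mul_le_mul_of_nonneg_left h2 hM

lemma omin_le (n k : ℕ) : oMin n ≤ collatz^[k] n :=
  Nat.sInf_le (s := {m : ℕ | ∃ k, collatz^[k] n = m}) ⟨k, rfl⟩

end MABx

open MABx in
theorem t_MAB : S_MAB := by
  intro hP hRM hDET a b c hc hc2
  obtain ⟨K, hK, hP⟩ := hP a b (1 / 8) c (by norm_num) hc hc2
  obtain ⟨K₂, hK₂, hRM⟩ := hRM
  set M : ℝ := 2 ^ (a + b) * 2 with hM
  have hM0 : 0 ≤ M := by positivity
  refine ⟨K + (12800 * K₂ + 64 * M), by positivity, ?_⟩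
  intro h x hx
  have hx2 : (2 : ℝ) ≤ x := by exact_mod_cast hx
  have hx0 : (0 : ℝ) < x := by linarith
  have hlog : 0 < Real.log x := Real.log_pos (by linarith)
  set y : ℕ := Nat.sqrt x with hy
  have hy1 : 1 ≤ y := by
    rw [hy, Nat.le_sqrt']
    omega
  have hyx : (y : ℝ) ≤ (x : ℝ) ^ (1 / 2 : ℝ) := by
    rw [← Real.sqrt_eq_rpow]
    apply Real.le_sqrt_of_sq_le
    exact_mod_cast Nat.sqrt_le' x
  have hxy : (x : ℝ) ^ (1 / 2 : ℝ) ≤ 2 * y := by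
    rw [← Real.sqrt_eq_rpow, Real.sqrt_le_left (by positivity)]
    have h1 : x < (y + 1) ^ 2 := Nat.lt_succ_sqrt' x
    have h2 : x ≤ (2 * y) ^ 2 := h1.le.trans (Nat.pow_le_pow_left (by omega) 2)
    exact_mod_cast h2
  have hy0 : (0 : ℝ) < y := by exact_mod_cast hy1
  -- the key step
  have key : ∀ n : ℕ, (oMin (2 ^ a * 3 ^ b * n + h) ≠ oMin n ∨
      mTime (2 ^ a * 3 ^ b * n + h) + b ≠ mTime n + a) →
      BadP a b h (1 / 8 * Real.log x) n ∨ ((∀ k, y < collatz^[k] n) ∨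
        (n : ℝ) ≤ M * (x : ℝ) ^ (3 / 4 : ℝ)) := by
    intro n hn
    by_contra hcon
    rw [not_or, not_or, not_le, not_forall] at hcon
    obtain ⟨hb, ⟨k0, hk0⟩, hbig⟩ := hcon
    unfold BadP at hb
    rw [not_not] at hb
    obtain ⟨k, hk, hkk⟩ := hb
    have hmin : oMin n ≤ y := (omin_le n k0).trans (not_lt.mp hk0)
    have hZ : (2 : ℝ) ^ k ≤ (x : ℝ) ^ (1 / 8 : ℝ) := by
      have e1 : (2 : ℝ) ^ k ≤ Real.exp k := by
        have := Real.add_one_le_exp (1 : ℝ)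
        calc (2 : ℝ) ^ k ≤ (Real.exp 1) ^ k := pow_le_pow_left₀ (by norm_num) (by linarith) k
          _ = Real.exp k := by rw [← Real.exp_nat_mul, mul_one]
      have e2 : Real.exp k ≤ (x : ℝ) ^ (1 / 8 : ℝ) := by
        rw [Real.rpow_def_of_pos hx0]
        apply Real.exp_le_exp.2
        linarith
      exact e1.trans e2
    have hj : ∀ j : ℕ, j ≤ k + (a + b) → (2 : ℝ) ^ j ≤ 2 ^ (a + b) * (x : ℝ) ^ (1 / 8 : ℝ) := by
      intro j hj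
      calc (2 : ℝ) ^ j ≤ 2 ^ (k + (a + b)) := pow_le_pow_right₀ (by norm_num) hj
        _ = 2 ^ (a + b) * 2 ^ k := by rw [pow_add]; ring
        _ ≤ _ := mul_le_mul_of_nonneg_left hZ (by positivity)
    have hbig' : (2 : ℝ) ^ (a + b) * ((y : ℝ) + 1) * (x : ℝ) ^ (1 / 8 : ℝ) < (n : ℝ) := by
      refine lt_of_le_of_lt ?_ hbig
      have h1 : (1 : ℝ) ≤ (x : ℝ) ^ (1 / 2 : ℝ) := Real.one_le_rpow (by linarith) (by norm_num)
      have h2 : (y : ℝ) + 1 ≤ 2 * (x : ℝ) ^ (1 / 2 : ℝ) := by linarith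
      have h3 : (x : ℝ) ^ (1 / 2 : ℝ) * (x : ℝ) ^ (1 / 8 : ℝ) ≤ (x : ℝ) ^ (3 / 4 : ℝ) := by
        rw [← Real.rpow_add hx0]
        exact Real.rpow_le_rpow_of_exponent_le (by linarith) (by norm_num)
      calc (2 : ℝ) ^ (a + b) * ((y : ℝ) + 1) * (x : ℝ) ^ (1 / 8 : ℝ)
          ≤ 2 ^ (a + b) * (2 * (x : ℝ) ^ (1 / 2 : ℝ)) * (x : ℝ) ^ (1 / 8 : ℝ) := by
            gcongr
        _ = M * ((x : ℝ) ^ (1 / 2 : ℝ) * (x : ℝ) ^ (1 / 8 : ℝ)) := by rw [hM]; ring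
        _ ≤ _ := mul_le_mul_of_nonneg_left h3 hM0
    have hmn : ((n : ℕ) : ℝ) ≤ ((2 ^ a * 3 ^ b * n + h : ℕ) : ℝ) := by
      have : n ≤ 2 ^ a * 3 ^ b * n + h := by
        have h3 : 1 ≤ 2 ^ a * 3 ^ b := Nat.one_le_iff_ne_zero.2 (by positivity)
        nlinarith
      exact_mod_cast this
    obtain ⟨d1, d2⟩ := hDET n (2 ^ a * 3 ^ b * n + h) (k + b) (k + a) hkk
      (fun j hj' => lt_of_le_of_lt hmin (big le_rfl hbig' (hj j (by omega))))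
      (fun j hj' => lt_of_le_of_lt hmin (big hmn hbig' (hj j (by omega))))
    rcases hn with h4 | h4
    · exact h4 d1
    · apply h4
      omega
  have hsq : (1 : ℝ) ≤ Real.sqrt (h + 1) := by
    rw [Real.one_le_sqrt]
    have : (0 : ℝ) ≤ h := Nat.cast_nonneg _
    linarith
  -- the bound for RM
  have hrm : K₂ * x * (y : ℝ) ^ (-(1 / 20) : ℝ) ≤ 12800 * K₂ * (x / Real.log x ^ c) := by
    have h1 : (y : ℝ) ^ (-(1 / 20) : ℝ) ≤ 2 * (x : ℝ) ^ (-(1 / 40) : ℝ) := by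
      have h2 : (x : ℝ) ^ (1 / 2 : ℝ) / 2 ≤ y := by linarith
      have h3 : 0 < (x : ℝ) ^ (1 / 2 : ℝ) / 2 := by positivity
      calc (y : ℝ) ^ (-(1 / 20) : ℝ) ≤ ((x : ℝ) ^ (1 / 2 : ℝ) / 2) ^ (-(1 / 20) : ℝ) :=
            Real.rpow_le_rpow_of_nonpos h3 h2 (by norm_num)
        _ = (x : ℝ) ^ (-(1 / 40) : ℝ) * (2 : ℝ) ^ (1 / 20 : ℝ) := by
            rw [Real.div_rpow (by positivity) (by norm_num), ← Real.rpow_mul hx0.le,
              Real.rpow_neg (by norm_num : (0 : ℝ) ≤ 2), div_inv_eq_mul]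
            norm_num
        _ ≤ (x : ℝ) ^ (-(1 / 40) : ℝ) * 2 := by
            refine mul_le_mul_of_nonneg_left ?_ (by positivity)
            calc (2 : ℝ) ^ (1 / 20 : ℝ) ≤ (2 : ℝ) ^ (1 : ℝ) :=
                  Real.rpow_le_rpow_of_exponent_le (by norm_num) (by norm_num)
              _ = 2 := Real.rpow_one 2
        _ = _ := by ring
    have h4 := save hx2 hc.le (by linarith : c ≤ 2) (by norm_num : (0 : ℝ) < 1 / 80)
      (by norm_num)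
    have h5 : (x : ℝ) * (x : ℝ) ^ (-(1 / 40) : ℝ) = (x : ℝ) ^ (1 - 2 * (1 / 80) : ℝ) := by
      nth_rw 1 [← Real.rpow_one (x : ℝ)]
      rw [← Real.rpow_add hx0]
      norm_num
    calc K₂ * x * (y : ℝ) ^ (-(1 / 20) : ℝ) ≤ K₂ * x * (2 * (x : ℝ) ^ (-(1 / 40) : ℝ)) :=
          mul_le_mul_of_nonneg_left h1 (by positivity)
      _ = 2 * K₂ * (x * (x : ℝ) ^ (-(1 / 40) : ℝ)) := by ring
      _ ≤ 2 * K₂ * ((1 / (1 / 80)) ^ 2 * (x / Real.log x ^ c)) := by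
          rw [h5]
          exact mul_le_mul_of_nonneg_left h4 (by positivity)
      _ = _ := by ring
  have hF := few_or (hP h x hx) (few_or (few_mono hx (hRM x y hx hy1) hrm fun n hn => hn)
    (few_small hx hM0 hc.le (by linarith : c ≤ 1)))
  refine few_mono hx hF ?_ key
  have h7 : 0 ≤ (x : ℝ) / Real.log x ^ c := by positivity
  have h8 : (12800 * K₂ + 64 * M) * (x / Real.log x ^ c) ≤
      (12800 * K₂ + 64 * M) * (x / Real.log x ^ c) * Real.sqrt (h + 1) :=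
    le_mul_of_one_le_right (by positivity) hsq
  calc K * Real.sqrt (h + 1) * x / Real.log x ^ c +
      (12800 * K₂ * (x / Real.log x ^ c) + 64 * M * (x / Real.log x ^ c))
      = K * Real.sqrt (h + 1) * x / Real.log x ^ c +
        (12800 * K₂ + 64 * M) * (x / Real.log x ^ c) := by ring
    _ ≤ K * Real.sqrt (h + 1) * x / Real.log x ^ c +
        (12800 * K₂ + 64 * M) * (x / Real.log x ^ c) * Real.sqrt (h + 1) := by linarith
    _ = _ := by ring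

end

end COA
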