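import Pool.Agent.COA.St

/-!
# COA (helper89): every state leads to `(0, 0)` by some word (`S_MRG`)
-/

set_option autoImplicit false

namespace COA

namespace MRGx

/-- `s'` is reached from `s` by some word -/
def Rch (s s' : ℕ × ℤ) : Prop := ∃ w : List Bool, w.foldl step s = s'

lemma rch_refl (s : ℕ × ℤ) : Rch s s := ⟨[], rfl⟩

lemma rch_step {s s' : ℕ × ℤ} (c : Bool) (h : Rch (step s c) s') : Rch s s' := by
  obtain ⟨w, hw⟩ := h
  exact ⟨c :: w, by rw [List.foldl_cons, hw]⟩

lemma rch_trans {s s' s'' : ℕ × ℤ} (h : Rch s s') (h' : Rch s' s'') : Rch s s'' := by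
  obtain ⟨w, hw⟩ := h
  obtain ⟨w', hw'⟩ := h'
  exact ⟨w ++ w', by rw [List.foldl_append, hw, hw']⟩

lemma step_even_false {e : ℕ} {D : ℤ} (h : D % 2 = 0) : step (e, D) false = (e, D / 2) := by
  simp [step, h]

lemma step_even_true {e : ℕ} {D : ℤ} (h : D % 2 = 0) :
    step (e, D) true = (e, (3 * D + 1 - 3 ^ e) / 2) := by
  simp [step, h]

lemma step_odd_false {e : ℕ} {D : ℤ} (h : D % 2 = 1) :
    step (e, D) false = (e + 1, (3 * D + 1) / 2) := by
  simp [step, h]

lemma step_odd_zero {D : ℤ} (h : D % 2 = 1) : step (0, D) true = (1, (1 - 3 * D) / 2) := by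
  simp [step, h]

lemma step_odd_succ {e : ℕ} {D : ℤ} (h : D % 2 = 1) :
    step (e + 1, D) true = (e, (D - 3 ^ e) / 2) := by
  simp [step, h]

/-- lowering of `e`, for `D ≠ 0` -/
lemma low : ∀ (n : ℕ) (e : ℕ) (D : ℤ), D ≠ 0 → D.natAbs ≤ n → ∃ D', Rch (e + 1, D) (e, D')
  | 0, e, D, h0, h => by
    exfalso
    omega
  | n + 1, e, D, h0, h => by
    rcases Int.emod_two_eq_zero_or_one D with h2 | h2
    · obtain ⟨D', hD'⟩ := low n e (D / 2) (by omega) (by omega)
      exact ⟨D', rch_step false (by rw [step_even_false h2]; exact hD')⟩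
    · exact ⟨(D - 3 ^ e) / 2, rch_step true (by rw [step_odd_succ h2]; exact rch_refl _)⟩

lemma low' (e : ℕ) (D : ℤ) : ∃ D', Rch (e + 1, D) (e, D') := by
  by_cases h : D = 0
  · subst h
    have h3 : (3 : ℤ) ≤ 3 ^ (e + 1) := by
      have : (1 : ℤ) ≤ 3 ^ e := one_le_pow₀ (by norm_num)
      rw [pow_succ]
      linarith
    obtain ⟨D', hD'⟩ := low _ e ((3 * 0 + 1 - 3 ^ (e + 1)) / 2) (by omega) le_rfl
    exact ⟨D', rch_step true (by rw [step_even_true (by norm_num)]; exact hD')⟩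
  · exact low _ e D h le_rfl

lemma zero_fst : ∀ (e : ℕ) (D : ℤ), ∃ d, Rch (e, D) (0, d)
  | 0, D => ⟨D, rch_refl _⟩
  | e + 1, D => by
    obtain ⟨D', h⟩ := low' e D
    obtain ⟨d, hd⟩ := zero_fst e D'
    exact ⟨d, rch_trans h hd⟩

/-- from `(1, D)`, `D > 0`, to `(0, D')` with `0 ≤ D' ≤ (D - 1)/2` -/
lemma one_fst : ∀ (n : ℕ) (D : ℤ), 0 < D → D ≤ n →
    ∃ D', 0 ≤ D' ∧ 2 * D' ≤ D - 1 ∧ Rch (1, D) (0, D')
  | 0, D, h0, h => by
    exfalso
    push_cast at h
    omega
  | n + 1, D, h0, h => by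
    push_cast at h
    rcases Int.emod_two_eq_zero_or_one D with h2 | h2
    · obtain ⟨D', h3, h4, h5⟩ := one_fst n (D / 2) (by omega) (by omega)
      exact ⟨D', h3, by omega, rch_step false (by rw [step_even_false h2]; exact h5)⟩
    · refine ⟨(D - 3 ^ 0) / 2, ?_, ?_, rch_step true ?_⟩
      · rw [pow_zero]
        omega
      · rw [pow_zero]
        omega
      · rw [show (1 : ℕ) = 0 + 1 from rfl, step_odd_succ h2]
        exact rch_refl _

lemma to_zero : ∀ (n : ℕ) (d : ℤ), d.natAbs ≤ n → Rch (0, d) (0, 0)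
  | 0, d, h => by
    have : d = 0 := by omega
    subst this
    exact rch_refl _
  | n + 1, d, h => by
    by_cases h0 : d = 0
    · subst h0
      exact rch_refl _
    rcases Int.emod_two_eq_zero_or_one d with h2 | h2
    · refine rch_step false ?_
      rw [step_even_false h2]
      exact to_zero n _ (by omega)
    · rcases lt_or_gt_of_ne h0 with h3 | h3
      · refine rch_step true ?_
        rw [step_odd_zero h2]
        obtain ⟨D', h4, h5, h6⟩ := one_fst ((1 - 3 * d) / 2).toNat ((1 - 3 * d) / 2) (by omega)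
          (by omega)
        exact rch_trans h6 (to_zero n _ (by omega))
      · refine rch_step false ?_
        rw [step_odd_false h2]
        obtain ⟨D', h4, h5, h6⟩ := one_fst ((3 * d + 1) / 2).toNat ((3 * d + 1) / 2) (by omega)
          (by omega)
        exact rch_trans h6 (to_zero n _ (by omega))

end MRGx

theorem t_MRG : S_MRG := by
  intro s
  obtain ⟨e, D⟩ := s
  obtain ⟨d, h⟩ := MRGx.zero_fst e D
  exact MRGx.rch_trans h (MRGx.to_zero _ d le_rfl)

end COA
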