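import Pool.Agent.COA.St2

set_option autoImplicit false

/-!
# Coalescence of Collatz trajectories: pairs
-/

namespace COA

open Filter Topology Finset
open Pool.Agent.LibHelper3 (collatz)

noncomputable section

namespace PAIx

theorem log_pos {x : ℕ} (hx : 2 ≤ x) : 0 < Real.log x :=
  Real.log_pos (by exact_mod_cast hx)

theorem few_mono {x : ℕ} {X X' : ℝ} {Q Q' : ℕ → Prop} (hx : 2 ≤ x) (h : X ≤ X')
    (hQ : ∀ n, Q' n → Q n) (hF : Few x X Q) : Few x X' Q' := by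
  have hl := log_pos hx
  constructor
  · refine le_trans ?_ (hF.1.trans h)
    have hfin : {n : ℕ | 1 ≤ n ∧ n ≤ x ∧ Q n}.Finite :=
      (Set.finite_Iic x).subset fun n hn => hn.2.1
    have hsub : {n : ℕ | 1 ≤ n ∧ n ≤ x ∧ Q' n} ⊆ {n : ℕ | 1 ≤ n ∧ n ≤ x ∧ Q n} :=
      fun n hn => ⟨hn.1, hn.2.1, hQ n hn.2.2⟩
    exact_mod_cast Set.ncard_le_ncard hsub hfin
  · refine le_trans ?_ (hF.2.trans (div_le_div_of_nonneg_right h hl.le))
    have hfin : {p : ℕ | p.Prime ∧ p ≤ x ∧ Q p}.Finite :=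
      (Set.finite_Iic x).subset fun n hn => hn.2.1
    have hsub : {p : ℕ | p.Prime ∧ p ≤ x ∧ Q' p} ⊆ {p : ℕ | p.Prime ∧ p ≤ x ∧ Q p} :=
      fun n hn => ⟨hn.1, hn.2.1, hQ n hn.2.2⟩
    exact_mod_cast Set.ncard_le_ncard hsub hfin

theorem card_le (x : ℕ) (S : Set ℕ) (h : ∀ n ∈ S, 1 ≤ n ∧ n ≤ x) : S.ncard ≤ x := by
  have h1 : S ⊆ (Finset.Icc 1 x : Set ℕ) := fun n hn => by
    rw [Finset.coe_Icc]
    exact h n hn
  have h2 := Set.ncard_le_ncard h1 (Finset.finite_toSet _)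
  rw [Set.ncard_coe_finset, Nat.card_Icc] at h2
  omega

theorem few_triv {x : ℕ} {X : ℝ} {Q : ℕ → Prop} (hx : 2 ≤ x) (h1 : (x : ℝ) ≤ X)
    (h2 : x * Real.log x ≤ X) : Few x X Q := by
  have hl := log_pos hx
  constructor
  · refine le_trans ?_ h1
    have h3 := card_le x {n : ℕ | 1 ≤ n ∧ n ≤ x ∧ Q n} fun n hn => ⟨hn.1, hn.2.1⟩
    exact_mod_cast h3
  · rw [le_div_iff₀ hl]
    refine le_trans (mul_le_mul_of_nonneg_right ?_ hl.le) h2
    have h3 := card_le x {p : ℕ | p.Prime ∧ p ≤ x ∧ Q p} fun n hn => ⟨hn.1.one_lt.le, hn.2.1⟩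
    exact_mod_cast h3

/-- The time. -/
theorem time {δ' : ℝ} (h0 : 0 < δ') (h1 : δ' ≤ 1 / 2) {x : ℕ} (hx : 2 ≤ x) :
    2 ^ (2 * ⌊δ' * Real.log x⌋₊) ≤ x := by
  have hl := log_pos hx
  have hx0 : (0 : ℝ) < x := by positivity
  have h2 : (⌊δ' * Real.log x⌋₊ : ℝ) ≤ δ' * Real.log x := Nat.floor_le (by positivity)
  have h3 : ((2 : ℝ) ^ (2 * ⌊δ' * Real.log x⌋₊)) ≤ x := by
    rw [← Real.exp_log hx0, ← Real.rpow_natCast, Real.rpow_def_of_pos two_pos, Real.exp_le_exp,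
      Real.exp_log hx0]
    push_cast
    have h4 : Real.log 2 ≤ 1 := by
      have := Real.log_le_sub_one_of_pos (show (0 : ℝ) < 2 by norm_num)
      linarith
    have h5 : 0 < Real.log 2 := Real.log_pos (by norm_num)
    calc Real.log 2 * (2 * (⌊δ' * Real.log x⌋₊ : ℝ)) ≤ 1 * (2 * (δ' * Real.log x)) := by
          gcongr
      _ ≤ Real.log x := by nlinarith
  exact_mod_cast h3

theorem floor_ge {y : ℝ} (hy : 1 ≤ y) : y / 2 ≤ ⌊y⌋₊ := by
  have h1 : 1 ≤ ⌊y⌋₊ := (Nat.one_le_floor_iff y).2 hy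
  have h2 : (1 : ℝ) ≤ ⌊y⌋₊ := by exact_mod_cast h1
  have h3 := Nat.lt_floor_add_one y
  linarith

end PAIx

open PAIx in
theorem t_PAI : S_PAI := by
  intro hM hG hT a b δ c hδ hc hc2
  obtain ⟨C, hC0, hC⟩ := hM c hc hc2
  obtain ⟨G, hG0, hG⟩ := hG
  set δ' : ℝ := min δ 1 / 2 with hδ'
  have hd0 : 0 < δ' := by positivity
  have hd1 : δ' ≤ 1 / 2 := by
    have := min_le_right δ 1
    rw [hδ']; linarith
  have hd2 : 2 * δ' ≤ δ := by
    have := min_le_left δ 1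
    rw [hδ']; linarith
  set E : ℝ := 1 + a + b + Real.sqrt (2 ^ a) with hE
  have hE0 : 0 ≤ E := by positivity
  set K₁ : ℝ := 1 / δ' ^ 2 with hK₁
  set K₂ : ℝ := G * C * E * (δ' / 2) ^ (-c) with hK₂
  have hK₁0 : 0 ≤ K₁ := by positivity
  have hK₂0 : 0 ≤ K₂ := by
    have : 0 ≤ (δ' / 2) ^ (-c) := Real.rpow_nonneg (by positivity) _
    positivity
  refine ⟨K₁ + K₂, add_nonneg hK₁0 hK₂0, fun h x hx => ?_⟩
  have hl := log_pos hx
  have hx0 : (0 : ℝ) < x := by positivity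
  have hs1 : (1 : ℝ) ≤ Real.sqrt (h + 1) := by
    rw [Real.one_le_sqrt]
    have : (0 : ℝ) ≤ h := by positivity
    linarith
  have hlc : 0 < Real.log x ^ c := Real.rpow_pos_of_pos hl c
  rcases lt_or_ge (δ' * Real.log x) 1 with hlt | hge
  · -- small `x`
    have h1 : Real.log x ≤ 1 / δ' := by
      rw [le_div_iff₀ hd0]; linarith
    have h2 : (1 : ℝ) ≤ 1 / δ' := by
      rw [le_div_iff₀ hd0]; linarith
    have h3 : Real.log x ^ c ≤ 1 / δ' := by
      calc Real.log x ^ c ≤ (1 / δ') ^ c := Real.rpow_le_rpow hl.le h1 hc.le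
        _ ≤ (1 / δ') ^ (1 : ℝ) := Real.rpow_le_rpow_of_exponent_le h2 (by linarith)
        _ = 1 / δ' := Real.rpow_one _
    have h4 : (1 / δ') * x ≤ (K₁ + K₂) * Real.sqrt (h + 1) * x / Real.log x ^ c := by
      rw [le_div_iff₀ hlc]
      calc (1 / δ') * x * Real.log x ^ c ≤ (1 / δ') * x * (1 / δ') := by gcongr
        _ = K₁ * 1 * x := by rw [hK₁]; field_simp
        _ ≤ (K₁ + K₂) * Real.sqrt (h + 1) * x := by
          have : K₁ ≤ K₁ + K₂ := by linarith
          gcongr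
    refine few_triv hx (le_trans ?_ h4) (le_trans ?_ h4)
    · nlinarith
    · rw [mul_comm]
      gcongr
  · -- large `x`
    set t : ℕ := ⌊δ' * Real.log x⌋₊ with ht
    have ht1 : 1 ≤ t := (Nat.one_le_floor_iff _).2 hge
    have htx : 2 ^ (2 * t) ≤ x := time hd0 hd1 hx
    have htf : δ' * Real.log x / 2 ≤ t := floor_ge hge
    have htl : (t : ℝ) ≤ δ' * Real.log x := Nat.floor_le (by positivity)
    obtain ⟨e, D, he, hD, hMg⟩ := hT.1 a b h
    have hf := hC t ht1 (e, (D : ℤ))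
    have hfew := hG x t 0 (e, (D : ℤ)) hx htx
    refine few_mono hx ?_ ?_ hfew
    · -- the bound
      have h1 : (1 + (e : ℝ) + Real.sqrt |((D : ℤ) : ℝ)|) ≤ E * Real.sqrt (h + 1) := by
        have e1 : (e : ℝ) ≤ a + b := by exact_mod_cast he
        have e2 : Real.sqrt |((D : ℤ) : ℝ)| ≤ Real.sqrt (2 ^ a) * Real.sqrt (h + 1) := by
          rw [← Real.sqrt_mul (by positivity)]
          apply Real.sqrt_le_sqrt
          rw [Int.cast_natCast, abs_of_nonneg (by positivity)]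
          exact_mod_cast hD
        have e3 : (0 : ℝ) ≤ 1 + a + b := by positivity
        calc (1 + (e : ℝ) + Real.sqrt |((D : ℤ) : ℝ)|)
            ≤ (1 + a + b) * 1 + Real.sqrt (2 ^ a) * Real.sqrt (h + 1) := by linarith
          _ ≤ (1 + a + b) * Real.sqrt (h + 1) + Real.sqrt (2 ^ a) * Real.sqrt (h + 1) := by
            gcongr
          _ = E * Real.sqrt (h + 1) := by rw [hE]; ring
      have h2 : (t : ℝ) ^ (-c) ≤ (δ' / 2) ^ (-c) * (Real.log x ^ c)⁻¹ := by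
        rw [← Real.rpow_neg hl.le, ← Real.mul_rpow (by positivity) hl.le]
        apply Real.rpow_le_rpow_of_nonpos (by positivity) _ (by linarith)
        calc δ' / 2 * Real.log x = δ' * Real.log x / 2 := by ring
          _ ≤ t := htf
      have h3 : f t (e, (D : ℤ)) ≤ C * (E * Real.sqrt (h + 1)) *
          ((δ' / 2) ^ (-c) * (Real.log x ^ c)⁻¹) := by
        refine hf.trans ?_
        have h4 : (0 : ℝ) ≤ (t : ℝ) ^ (-c) := Real.rpow_nonneg (by positivity) _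
        apply mul_le_mul _ h2 h4 (by positivity)
        exact mul_le_mul_of_nonneg_left h1 hC0
      calc G * x * f t (e, (D : ℤ)) ≤ G * x * (C * (E * Real.sqrt (h + 1)) *
            ((δ' / 2) ^ (-c) * (Real.log x ^ c)⁻¹)) :=
            mul_le_mul_of_nonneg_left h3 (by positivity)
        _ = K₂ * Real.sqrt (h + 1) * x / Real.log x ^ c := by
          rw [hK₂, div_eq_mul_inv]; ring
        _ ≤ (K₁ + K₂) * Real.sqrt (h + 1) * x / Real.log x ^ c := by
          have : K₂ ≤ K₁ + K₂ := by linarith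
          gcongr
    · -- the bad set
      intro n hn hm
      apply hn
      rw [add_zero] at hm
      obtain ⟨k, hk, hk2⟩ := hMg t n hm
      refine ⟨k, ?_, hk2⟩
      have h1 : (k : ℝ) ≤ 2 * t := by exact_mod_cast hk
      calc (k : ℝ) ≤ 2 * t := h1
        _ ≤ 2 * (δ' * Real.log x) := by linarith
        _ = (2 * δ') * Real.log x := by ring
        _ ≤ δ * Real.log x := by gcongr

end

end COA
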