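import Pool.Agent.COA.St2
import Pool.Agent.Lib_helper62.ND.Final
import Pool.Agent.Lib_helper3.Mix.Mixing
import Pool.Agent.Lib_helper3.PR.Final2

set_option autoImplicit false

/-!
# Project COA, module RM: few integers and few primes have large orbit minimum
(from the library results `PR.rough`, `PR.stmtPrimes`, `ND.final`)
-/

namespace COA

open Pool.Agent.LibHelper3 (collatz)

theorem t_RM : S_RM := by
  have h95 := (ND.final Pool.Agent.LibHelper3.Mix.mixing).1
  obtain ⟨K1, h1⟩ := PR.rough (0.95 : ℝ) h95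
  obtain ⟨K2, _, h2⟩ := PR.stmtPrimes (0.95 : ℝ) h95
  refine ⟨max (max K1 K2) 0, le_max_right _ _, ?_⟩
  intro x y hx hy
  have e : (0.95 : ℝ) - 1 = -(1 / 20) := by norm_num
  have hxy : 0 ≤ (x : ℝ) * (y : ℝ) ^ (-(1 / 20) : ℝ) := by positivity
  have hK1 : K1 ≤ max (max K1 K2) 0 := le_trans (le_max_left _ _) (le_max_left _ _)
  have hK2 : K2 ≤ max (max K1 K2) 0 := le_trans (le_max_right _ _) (le_max_left _ _)
  refine ⟨?_, ?_⟩
  · have a := h1 x y 1 (by omega) hy le_rfl (by omega)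
    rw [e, Nat.cast_one, Real.log_one, add_zero, div_one] at a
    have hs : {n : ℕ | 1 ≤ n ∧ n ≤ x ∧ (∀ p : ℕ, p.Prime → p ∣ n → 1 < p) ∧
        ∀ k, y < collatz^[k] n} = {n : ℕ | 1 ≤ n ∧ n ≤ x ∧ ∀ k, y < collatz^[k] n} := by
      ext n
      constructor
      · rintro ⟨h, h', _, h''⟩
        exact ⟨h, h', h''⟩
      · rintro ⟨h, h', h''⟩
        exact ⟨h, h', fun p hp _ => hp.one_lt, h''⟩
    rw [hs] at a
    refine a.trans ?_
    rw [mul_assoc, mul_assoc]
    exact mul_le_mul_of_nonneg_right hK1 hxy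
  · have a := h2 x y hx hy
    rw [e] at a
    refine a.trans ?_
    have hl : 0 ≤ Real.log x := Real.log_natCast_nonneg x
    refine div_le_div_of_nonneg_right ?_ hl
    rw [mul_assoc, mul_assoc]
    exact mul_le_mul_of_nonneg_right hK2 hxy

end COA
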