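import Pool.Agent.COA.St

set_option autoImplicit false

/-!
# Coalescence of Collatz trajectories: from pairs of integers to the Collatz map (TRN)
-/

namespace COA

open Filter Topology Finset
open Pool.Agent.LibHelper3

namespace TRNx

lemma T_cast (n : ℕ) : T (n : ℤ) = ((short n : ℕ) : ℤ) := by
  unfold T short
  by_cases h : n % 2 = 0
  · have h1 : (n : ℤ) % 2 = 0 := by omega
    rw [if_pos h, if_pos h1]
    omega
  · have h1 : ¬ (n : ℤ) % 2 = 0 := by omega
    rw [if_neg h, if_neg h1]
    omega

lemma T_iter (t n : ℕ) : T^[t] (n : ℤ) = ((short^[t] n : ℕ) : ℤ) := by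
  induction t with
  | zero => rfl
  | succ t ih => rw [Function.iterate_succ_apply', Function.iterate_succ_apply', ih, T_cast]

lemma od_cast (t n : ℕ) : od t (n : ℤ) = odds t n := by
  induction t with
  | zero => rfl
  | succ t ih =>
    rw [odds_succ, ← ih]
    unfold od
    rw [Finset.range_add_one, Finset.filter_insert, T_iter]
    rcases Nat.mod_two_eq_zero_or_one (short^[t] n) with h | h
    · have h1 : ¬ (((short^[t] n : ℕ) : ℤ) % 2 = 1) := by omega
      rw [if_neg h1, h, add_zero]
    · have h1 : ((short^[t] n : ℕ) : ℤ) % 2 = 1 := by omega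
      rw [if_pos h1, h, Finset.card_insert_of_notMem (by simp)]

lemma short_le (n : ℕ) : short n ≤ 2 * n := by
  unfold short
  split_ifs with h <;> omega

lemma iter_le (a h : ℕ) : short^[a] h ≤ 2 ^ a * h := by
  induction a with
  | zero => simp
  | succ a ih =>
    rw [Function.iterate_succ_apply']
    refine (short_le _).trans ?_
    rw [pow_succ]
    nlinarith

lemma odds_add (a t n : ℕ) : odds (a + t) n = odds a n + odds t (short^[a] n) := by
  induction t with
  | zero => simp [odds_zero]
  | succ t ih =>
    rw [← add_assoc, odds_succ, odds_succ, ih, add_comm a t, Function.iterate_add_apply]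
    ring

/-- the consequence of COR for natural numbers -/
lemma cor_nat (h : S_COR) {t n e D : ℕ} (hM : Mg t (n : ℤ) (e, (D : ℤ))) :
    short^[t] n = short^[t] (3 ^ e * n + D) ∧ odds t n = e + odds t (3 ^ e * n + D) := by
  have h1 := h t n (e, (D : ℤ)) hM
  have h2 : (3 : ℤ) ^ e * (n : ℤ) + (D : ℤ) = ((3 ^ e * n + D : ℕ) : ℤ) := by push_cast; ring
  simp only at h1
  rw [h2, T_iter, T_iter, od_cast, od_cast] at h1
  exact ⟨by exact_mod_cast h1.1, h1.2⟩

end TRNx

open TRNx in
/-- TRN -/
theorem t_TRN : S_TRN := by
  intro hC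
  refine ⟨?_, ?_⟩
  · intro a b h
    refine ⟨b + odds a h, short^[a] h, ?_, ?_, ?_⟩
    · have := odds_le a h
      omega
    · refine (iter_le a h).trans (Nat.mul_le_mul_left _ (by omega))
    · intro t n hM
      obtain ⟨h1, h2⟩ := cor_nat hC hM
      obtain ⟨h3, h4⟩ := short_iterate_add a (3 ^ b * n) h
      set y := 2 ^ a * 3 ^ b * n + h with hy
      have hy' : 2 ^ a * (3 ^ b * n) + h = y := by rw [hy]; ring
      rw [hy'] at h3 h4
      have h5 : 3 ^ odds a h * (3 ^ b * n) + short^[a] h = 3 ^ (b + odds a h) * n + short^[a] h := by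
        rw [pow_add]
        ring
      rw [h5] at h3
      have h6 := short_eq_collatz t n
      have h7 := short_eq_collatz (a + t) y
      rw [odds_add, h4, h3, add_comm a t, Function.iterate_add_apply, h3, ← h1, h6, h2] at h7
      have h8 := odds_le t n
      refine ⟨t + odds a h + odds t (3 ^ (b + odds a h) * n + short^[a] h), by omega, ?_⟩
      convert h7 using 2 <;> ring_nf
  · intro t n I hM
    have hO := odds_le t n
    refine ⟨t + odds t n, by omega, ?_⟩
    have key : ∀ i, i ≤ I → short^[t] (n + i) = short^[t] n ∧ odds t (n + i) = odds t n := by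
      intro i
      induction i with
      | zero => intro _; exact ⟨rfl, rfl⟩
      | succ i ih =>
        intro hi
        obtain ⟨h1, h2⟩ := ih (by omega)
        have h3 : Mg t ((n + i : ℕ) : ℤ) (0, ((1 : ℕ) : ℤ)) := by
          have := hM i (by omega)
          simpa using this
        obtain ⟨h4, h5⟩ := cor_nat hC h3
        have h6 : 3 ^ 0 * (n + i) + 1 = n + (i + 1) := by ring
        rw [h6] at h4 h5
        exact ⟨h4.symm.trans h1, by omega⟩
    intro i hi
    obtain ⟨h1, h2⟩ := key i hi
    have h3 := short_eq_collatz t (n + i)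
    rw [h2, h1, short_eq_collatz t n] at h3
    exact h3.symm

end COA
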