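import Pool.Agent.COA.St

/-!
# COA, module UT (helper69): the function `U` corrected on a finite set
-/

set_option autoImplicit false

namespace COA

open Filter Topology Finset

noncomputable section

namespace UTx

/-- The sum of the first `τ` of the functions `f j`. -/
def Phi (τ : ℕ) (s : ℕ × ℤ) : ℝ := ∑ j ∈ range τ, f j s

lemma f_succ (t : ℕ) (s : ℕ × ℤ) : avg (f t) s = f (t + 1) s := rfl

lemma avg_Phi (τ : ℕ) (s : ℕ × ℤ) : avg (Phi τ) s = Phi τ s - f 0 s + f τ s := by
  have h1 : avg (Phi τ) s = ∑ j ∈ range τ, f (j + 1) s := by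
    unfold avg Phi
    rw [← Finset.sum_add_distrib, Finset.sum_div]
    rfl
  have h2 := Finset.sum_range_succ' (fun j => f j s) τ
  have h3 := Finset.sum_range_succ (fun j => f j s) τ
  rw [h1]
  unfold Phi
  linarith

lemma fin_set (N : ℤ) : ∃ F : Finset (ℕ × ℤ), ∀ s : ℕ × ℤ, s.1 = 0 → |s.2| < N → s ∈ F := by
  refine ⟨(Finset.Icc (-N) N).image (fun D => (0, D)), fun s h1 h2 => ?_⟩
  rw [Finset.mem_image]
  refine ⟨s.2, ?_, Prod.ext h1.symm rfl⟩
  rw [Finset.mem_Icc]
  have := abs_lt.1 h2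
  exact ⟨this.1.le, this.2.le⟩

end UTx

open UTx in
theorem t_UT : S_UT := by
  intro hF hM hU
  obtain ⟨f1, f2, f3, f4⟩ := hF
  obtain ⟨u1, u2, u3, u4, u5, u6, u7⟩ := hU
  choose w hw using hM
  have anti : ∀ s, ∀ a b, a ≤ b → f b s ≤ f a s := by
    intro s a b hab
    induction b, hab using Nat.le_induction with
    | base => exact le_rfl
    | succ n _ ih => exact (f3 n s).trans ih
  obtain ⟨F, hFs⟩ := fin_set (10 ^ 10)
  set τ : ℕ := F.sup (fun s => (w s).length) with hτ
  set η : ℝ := (1 / 2 : ℝ) ^ τ with hη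
  have η0 : 0 < η := by positivity
  have hFη : ∀ s ∈ F, f τ s ≤ 1 - η := by
    intro s hs
    have h1 : (w s).length ≤ τ := Finset.le_sup (f := fun s => (w s).length) hs
    have h2 := f4 (w s) s (hw s)
    have h3 := anti s _ _ h1
    have h4 : η ≤ (1 / 2 : ℝ) ^ (w s).length :=
      pow_le_pow_of_le_one (by norm_num) (by norm_num) h1
    linarith
  have Φ0 : ∀ s, 0 ≤ Phi τ s := fun s => Finset.sum_nonneg fun j _ => (f1 j s).1
  have Φ1 : ∀ s, Phi τ s ≤ τ := by
    intro s
    have := Finset.sum_le_sum (s := range τ) (fun j _ => (f1 j s).2)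
    unfold Phi
    simpa using this
  have f0 : ∀ s : ℕ × ℤ, s ≠ (0, 0) → f 0 s = 1 := by
    intro s hs
    show (if s = (0, 0) then (0 : ℝ) else 1) = 1
    rw [if_neg hs]
  have hav : ∀ (c : ℝ) (s : ℕ × ℤ), avg (fun s => U s + c * Phi τ s) s =
      avg U s + c * avg (Phi τ) s := by
    intro c s
    unfold avg
    ring
  have c0 : 0 < 5001 / η := by positivity
  have A1 : ∀ s, s ≠ (0, 0) → avg (Phi τ) s ≤ Phi τ s := by
    intro s hs
    rw [avg_Phi, f0 s hs]
    have := (f1 τ s).2
    linarith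
  have A2 : ∀ s, s ≠ (0, 0) → s ∈ F → avg (Phi τ) s ≤ Phi τ s - η := by
    intro s hs hsF
    rw [avg_Phi, f0 s hs]
    have := hFη s hsF
    linarith
  have key : ∀ s : ℕ × ℤ, s ≠ (0, 0) → s.1 = 0 →
      avg (fun s => U s + 5001 / η * Phi τ s) s ≤ U s + 5001 / η * Phi τ s - 1 / 25 := by
    intro s hs hs1
    rw [hav]
    have B1 := mul_le_mul_of_nonneg_left (A1 s hs) c0.le
    by_cases hev : s.2 % 2 = 0
    · have hne : s.2 ≠ 0 := fun h => hs (Prod.ext hs1 h)
      have := u5 s hs1 hev hne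
      linarith
    · have hodd : s.2 % 2 = 1 := by omega
      by_cases hbig : 10 ^ 10 ≤ |s.2|
      · have := u7 s hs1 hodd hbig
        linarith
      · have hsF : s ∈ F := hFs s hs1 (not_le.1 hbig)
        have h6 := u6 s hs1 hodd
        have h7 := mul_le_mul_of_nonneg_left (A2 s hs hsF) c0.le
        have h8 : 5001 / η * (Phi τ s - η) = 5001 / η * Phi τ s - 5001 := by
          field_simp
        linarith
  refine ⟨fun s => U s + 5001 / η * Phi τ s, 200020 + 5001 / η * τ, 1 / 25, by norm_num,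
    by norm_num, by positivity, ?_, ?_, ?_, key⟩
  · intro s
    have := mul_nonneg c0.le (Φ0 s)
    have := u1 s
    show (s.1 : ℝ) ≤ U s + 5001 / η * Phi τ s
    linarith
  · intro s
    have := mul_le_mul_of_nonneg_left (Φ1 s) c0.le
    have := u3 s
    show U s + 5001 / η * Phi τ s ≤ _
    linarith
  · intro s hs
    by_cases hs1 : s.1 = 0
    · exact (key s hs hs1).trans (by linarith)
    · rw [hav]
      have := u4 s (Nat.one_le_iff_ne_zero.2 hs1)
      have := mul_le_mul_of_nonneg_left (A1 s hs) c0.le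
      linarith

end

end COA
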