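import Pool.Agent.COA.St

set_option autoImplicit false

/-!
# COA, VCN: the main estimate from the potential argument
-/

namespace COA

open Filter Topology Finset

noncomputable section

namespace VCNx

/-- the weights -/
def gg (j : ℕ) : ℝ := 2 + ((vv (j + 1) : ℝ) + vv (j - 1)) / 2

lemma gg_nn (j : ℕ) : 0 ≤ gg j := by
  unfold gg
  positivity

/-- the concave function of `e` -/
def bb (N e : ℕ) : ℝ := ∑ j ∈ Icc 1 N, 2 * gg j * ((min e j : ℕ) : ℝ)

lemma bb_nn (N e : ℕ) : 0 ≤ bb N e := by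
  unfold bb
  apply Finset.sum_nonneg
  intro j _
  have := gg_nn j
  positivity

lemma bb_zero (N : ℕ) : bb N 0 = 0 := by
  unfold bb
  simp

/-- the sum of the weights -/
def GG (N : ℕ) : ℝ := ∑ j ∈ Icc 1 N, 2 * gg j

lemma GG_nn (N : ℕ) : 0 ≤ GG N := by
  unfold GG
  apply Finset.sum_nonneg
  intro j _
  have := gg_nn j
  positivity

lemma bb_one (N : ℕ) : bb N 1 = GG N := by
  unfold bb GG
  apply Finset.sum_congr rfl
  intro j hj
  have h1 := (Finset.mem_Icc.1 hj).1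
  rw [min_eq_left h1]
  push_cast
  ring

lemma bb_le (N e : ℕ) : bb N e ≤ GG N * N := by
  unfold bb GG
  rw [Finset.sum_mul]
  apply Finset.sum_le_sum
  intro j hj
  have h1 := (Finset.mem_Icc.1 hj).2
  have h2 : ((min e j : ℕ) : ℝ) ≤ N := by exact_mod_cast (min_le_right e j).trans h1
  have h3 := gg_nn j
  exact mul_le_mul_of_nonneg_left h2 (by positivity)

lemma bb_diff (N e : ℕ) (h1 : 1 ≤ e) (h2 : e ≤ N) :
    (bb N (e + 1) + bb N (e - 1)) / 2 = bb N e - gg e := by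
  have h3 : bb N (e + 1) + bb N (e - 1) - 2 * bb N e =
      ∑ j ∈ Icc 1 N, (if j = e then -(2 * gg j) else 0) := by
    unfold bb
    rw [Finset.mul_sum, ← Finset.sum_add_distrib, ← Finset.sum_sub_distrib]
    apply Finset.sum_congr rfl
    intro j hj
    have h4 : ((min (e + 1) j : ℕ) : ℤ) + ((min (e - 1) j : ℕ) : ℤ) - 2 * ((min e j : ℕ) : ℤ) =
        if j = e then -1 else 0 := by
      split_ifs <;> omega
    have h5 : ((min (e + 1) j : ℕ) : ℝ) + ((min (e - 1) j : ℕ) : ℝ) - 2 * ((min e j : ℕ) : ℝ) =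
        if j = e then -1 else 0 := by
      have this : (((min (e + 1) j : ℕ) : ℤ) + ((min (e - 1) j : ℕ) : ℤ) -
          2 * ((min e j : ℕ) : ℤ) : ℝ) = ((if j = e then -1 else 0 : ℤ) : ℝ) := by
        exact_mod_cast h4
      rw [show ((if j = e then -1 else 0 : ℤ) : ℝ) = if j = e then -1 else 0 by
        split_ifs <;> simp] at this
      rw [← this]
      push_cast
      ring
    have h6 : (if j = e then -(2 * gg j) else 0) = 2 * gg j * (if j = e then -1 else 0) := by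
      split_ifs <;> ring
    rw [h6, ← h5]
    ring
  rw [Finset.sum_ite_eq' (Icc 1 N) e (fun j => -(2 * gg j)),
    if_pos (Finset.mem_Icc.2 ⟨h1, h2⟩)] at h3
  linarith

lemma GG_le (hH : S_HLD) (N : ℕ) (hN : 1 ≤ N) : GG N ≤ 16 * N := by
  obtain ⟨-, -, -, h⟩ := hH
  obtain ⟨K, rfl⟩ : ∃ K, N = K + 1 := ⟨N - 1, by omega⟩
  have h1 : GG (K + 1) = ∑ i ∈ range (K + 1), (4 + ((vv (i + 2) : ℝ) + vv i)) := by
    unfold GG
    have h2 : Icc 1 (K + 1) = (range (K + 1)).image (fun i => i + 1) := by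
      ext x
      simp only [Finset.mem_Icc, Finset.mem_image, Finset.mem_range]
      constructor
      · rintro ⟨a, b⟩
        exact ⟨x - 1, by omega, by omega⟩
      · rintro ⟨i, a, rfl⟩
        omega
    rw [h2, Finset.sum_image (by intro a _ b _ hab; simpa using hab)]
    apply Finset.sum_congr rfl
    intro i _
    unfold gg
    rw [Nat.add_sub_cancel]
    ring
  rw [h1, Finset.sum_add_distrib, Finset.sum_add_distrib]
  have h3 : ∑ i ∈ range (K + 1), (vv (i + 2) : ℝ) ≤ ∑ e ∈ range (K + 2 + 1), (vv e : ℝ) := by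
    rw [Finset.sum_range_succ' (fun e => (vv e : ℝ)) (K + 2),
      Finset.sum_range_succ' (fun e => (vv (e + 1) : ℝ)) (K + 1)]
    have a1 : (0 : ℝ) ≤ (vv 0 : ℝ) := Nat.cast_nonneg _
    have a2 : (0 : ℝ) ≤ (vv (0 + 1) : ℝ) := Nat.cast_nonneg _
    have a3 : ∑ i ∈ range (K + 1), (vv (i + 2) : ℝ) = ∑ i ∈ range (K + 1), (vv (i + 1 + 1) : ℝ) :=
      rfl
    rw [a3]
    linarith
  have h4 := h (K + 2)
  have h5 := h K
  have h6 : ∑ _i ∈ range (K + 1), (4 : ℝ) = 4 * (K + 1) := by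
    rw [Finset.sum_const, Finset.card_range]
    push_cast
    ring
  rw [h6]
  push_cast at h4 ⊢
  have h7 : (0 : ℝ) ≤ K := Nat.cast_nonneg _
  linarith

/-- the drift -/
lemma drift (hH : S_HLD) (Ut : ℕ × ℤ → ℝ) (θ : ℝ) (hθ : 0 < θ)
    (h1 : ∀ s : ℕ × ℤ, (s.1 : ℝ) ≤ Ut s)
    (h3 : ∀ s : ℕ × ℤ, s ≠ (0, 0) → avg Ut s ≤ Ut s)
    (h4 : ∀ s : ℕ × ℤ, s ≠ (0, 0) → s.1 = 0 → avg Ut s ≤ Ut s - θ) (N : ℕ)
    (s : ℕ × ℤ) (hs : s ≠ (0, 0)) (hU : Ut s < N) :
    avg (fun s => bb N s.1 + H s + (GG N + 3) / θ * Ut s) s + 1 ≤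
      bb N s.1 + H s + (GG N + 3) / θ * Ut s := by
  obtain ⟨hH1, hH2, hH3, -⟩ := hH
  have hG := GG_nn N
  have hC : 0 ≤ (GG N + 3) / θ := by positivity
  have hCθ : (GG N + 3) / θ * θ = GG N + 3 := by field_simp
  have hav : avg (fun s => bb N s.1 + H s + (GG N + 3) / θ * Ut s) s =
      (bb N (step s false).1 + bb N (step s true).1) / 2 + avg H s +
        (GG N + 3) / θ * avg Ut s := by
    unfold avg
    ring
  rw [hav]
  have hlt : s.1 < N := by
    have := (h1 s).trans_lt hU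
    exact_mod_cast this
  rcases Nat.eq_zero_or_pos s.1 with he | he
  · -- `e = 0`
    have hHs : H s = 0 := by
      unfold H
      rw [if_pos he]
    have hm := mul_le_mul_of_nonneg_left (h4 s hs he) hC
    rw [mul_sub, hCθ] at hm
    by_cases hD : s.2 % 2 = 0
    · have e1 : (step s false).1 = 0 := by
        unfold step
        rw [if_pos hD]
        simpa using he
      have e2 : (step s true).1 = 0 := by
        unfold step
        rw [if_pos hD]
        simpa using he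
      have e3 : avg H s = 0 := by
        unfold avg
        have : H (step s false) = 0 := by unfold H; rw [if_pos e1]
        have h5 : H (step s true) = 0 := by unfold H; rw [if_pos e2]
        rw [this, h5]
        norm_num
      rw [e1, e2, e3, he, bb_zero, hHs]
      linarith
    · have e1 : (step s false).1 = 1 := by
        unfold step
        rw [if_neg hD]
        simp [he]
      have e2 : (step s true).1 = 1 := by
        unfold step
        rw [if_neg hD]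
        simp [he]
      have e3 : avg H s ≤ 2 := by
        unfold avg
        have a1 := (hH1 (step s false)).2.1
        have a2 := (hH1 (step s true)).2.1
        rw [e1] at a1
        rw [e2] at a2
        push_cast at a1 a2
        linarith
      rw [e1, e2, he, bb_zero, bb_one, hHs]
      linarith
  · have hm := mul_le_mul_of_nonneg_left (h3 s hs) hC
    by_cases hD : s.2 % 2 = 0
    · have e1 : (step s false).1 = s.1 := by
        unfold step
        rw [if_pos hD]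
        simp
      have e2 : (step s true).1 = s.1 := by
        unfold step
        rw [if_pos hD]
        simp
      rw [e1, e2, hH2 s he hD]
      linarith
    · have hD1 : s.2 % 2 = 1 := by omega
      have e1 : (step s false).1 = s.1 + 1 := by
        unfold step
        rw [if_neg hD]
        simp
      have e2 : (step s true).1 = s.1 - 1 := by
        unfold step
        rw [if_neg hD]
        simp only [if_true]
        rw [if_neg he.ne']
      rw [e1, e2, bb_diff N s.1 he hlt.le, hH3 s hD1]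
      have e3 : avg H s ≤ gg s.1 - 1 := by
        unfold avg gg
        have a1 := (hH1 (step s false)).2.2
        have a2 := (hH1 (step s true)).2.2
        rw [e1] at a1
        rw [e2] at a2
        linarith
      linarith

/-- the bound for one `N` -/
lemma bound (hF : S_FPR) (hA : S_ABS) (hH : S_HLD) (Ut : ℕ × ℤ → ℝ) (θ : ℝ) (hθ : 0 < θ)
    (hθ1 : θ ≤ 1) (h1 : ∀ s : ℕ × ℤ, (s.1 : ℝ) ≤ Ut s)
    (h3 : ∀ s : ℕ × ℤ, s ≠ (0, 0) → avg Ut s ≤ Ut s)
    (h4 : ∀ s : ℕ × ℤ, s ≠ (0, 0) → s.1 = 0 → avg Ut s ≤ Ut s - θ) (N : ℕ) (hN : 1 ≤ N)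
    (t : ℕ) (s : ℕ × ℤ) :
    f t s ≤ Ut s / N + 2 * Real.exp (-(t / (80 / θ * (N : ℝ) ^ 2))) := by
  have hN0 : (0 : ℝ) < N := by exact_mod_cast hN
  have hN1 : (1 : ℝ) ≤ N := by exact_mod_cast hN
  by_cases hU : Ut s < N
  · obtain ⟨hH1, -, -, -⟩ := id hH
    have hUn : ∀ s, 0 ≤ Ut s := fun s => (Nat.cast_nonneg _).trans (h1 s)
    have hG := GG_nn N
    have hG16 := GG_le hH N hN
    have hC : 0 ≤ (GG N + 3) / θ := by positivity
    set M : ℝ := 40 / θ * (N : ℝ) ^ 2 with hM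
    have hinv : 1 ≤ 1 / θ := by rwa [le_div_iff₀ hθ, one_mul]
    have hM1 : 1 ≤ M := by
      rw [hM]
      have a1 : 1 ≤ (N : ℝ) ^ 2 := one_le_pow₀ hN1
      have a2 : (1 : ℝ) ≤ 40 / θ := by
        rw [le_div_iff₀ hθ]
        linarith
      nlinarith
    have hVM : ∀ s : ℕ × ℤ, Ut s < N →
        bb N s.1 + H s + (GG N + 3) / θ * Ut s ≤ M := by
      intro s hs
      have b1 := bb_le N s.1
      have b2 := (hH1 s).2.1
      have b3 : (s.1 : ℝ) ≤ N := (h1 s).trans hs.le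
      have b4 : (GG N + 3) / θ * Ut s ≤ (GG N + 3) / θ * N :=
        mul_le_mul_of_nonneg_left hs.le hC
      have b5 : (GG N + 3) / θ * N ≤ 19 / θ * (N : ℝ) ^ 2 := by
        rw [div_mul_eq_mul_div, div_mul_eq_mul_div]
        apply div_le_div_of_nonneg_right _ hθ.le
        nlinarith
      have b6 : GG N * N ≤ 16 * (N : ℝ) ^ 2 := by nlinarith
      have b7 : 18 * (N : ℝ) ^ 2 ≤ 18 / θ * (N : ℝ) ^ 2 := by
        rw [div_mul_eq_mul_div, le_div_iff₀ hθ]
        nlinarith [sq_nonneg (N : ℝ)]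
      have b8 : M = 21 / θ * (N : ℝ) ^ 2 + 19 / θ * (N : ℝ) ^ 2 := by
        rw [hM]
        ring
      have b9 : 18 / θ * (N : ℝ) ^ 2 ≤ 21 / θ * (N : ℝ) ^ 2 := by
        apply mul_le_mul_of_nonneg_right _ (sq_nonneg _)
        apply div_le_div_of_nonneg_right _ hθ.le
        norm_num
      nlinarith
    have key := hA hF Ut (fun s => bb N s.1 + H s + (GG N + 3) / θ * Ut s) N M hN0 hM1 hUn
      (fun s => by
        have b1 := bb_nn N s.1
        have b2 := (hH1 s).1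
        have b3 := mul_nonneg hC (hUn s)
        show 0 ≤ bb N s.1 + H s + (GG N + 3) / θ * Ut s
        linarith) h3
      (fun s hs hU => ⟨hVM s hU, drift hH Ut θ hθ h1 h3 h4 N s hs hU⟩) t s
    refine key.trans ?_
    have hV := hVM s hU
    have hM0 : 0 < M := by linarith
    have c1 : (1 + (bb N s.1 + H s + (GG N + 3) / θ * Ut s) / M) ≤ 2 := by
      have : (bb N s.1 + H s + (GG N + 3) / θ * Ut s) / M ≤ 1 := by
        rw [div_le_one hM0]
        exact hV
      linarith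
    have c2 : (1 - 1 / (2 * M)) ^ t ≤ Real.exp (-(t / (80 / θ * (N : ℝ) ^ 2))) := by
      have d1 : 1 - 1 / (2 * M) ≤ Real.exp (-(1 / (2 * M))) := by
        have := Real.add_one_le_exp (-(1 / (2 * M)))
        linarith
      have d2 : 0 ≤ 1 - 1 / (2 * M) := by
        have : 1 / (2 * M) ≤ 1 := by
          rw [div_le_one (by positivity)]
          linarith
        linarith
      have d3 := pow_le_pow_left₀ d2 d1 t
      refine d3.trans (le_of_eq ?_)
      rw [← Real.exp_nat_mul]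
      congr 1
      rw [hM]
      field_simp
      ring
    have c3 : 0 ≤ (1 - 1 / (2 * M)) ^ t := by
      apply pow_nonneg
      have : 1 / (2 * M) ≤ 1 := by
        rw [div_le_one (by positivity)]
        linarith
      linarith
    have c4 : (1 + (bb N s.1 + H s + (GG N + 3) / θ * Ut s) / M) * (1 - 1 / (2 * M)) ^ t ≤
        2 * Real.exp (-(t / (80 / θ * (N : ℝ) ^ 2))) :=
      (mul_le_mul_of_nonneg_right c1 c3).trans (mul_le_mul_of_nonneg_left c2 (by norm_num))
    exact add_le_add le_rfl c4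
  · have h5 := (hF.1 t s).2
    have h6 : 1 ≤ Ut s / N := by
      rw [le_div_iff₀ hN0, one_mul]
      exact not_lt.1 hU
    have h7 := Real.exp_pos (-(t / (80 / θ * (N : ℝ) ^ 2)))
    linarith

/-- the exponential beats the power -/
lemma expo (κ c : ℝ) (hκ : 0 < κ) (hc1 : c < 1 / 2) :
    ∃ K : ℝ, 0 ≤ K ∧ ∀ t : ℝ, 1 ≤ t → Real.exp (-(κ * t ^ (1 - 2 * c))) ≤ K * t ^ (-c) := by
  have hd : 0 < 1 - 2 * c := by linarith
  obtain ⟨k, hk⟩ := exists_nat_ge (c / (1 - 2 * c))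
  have hk' : c ≤ (1 - 2 * c) * k := by
    rw [div_le_iff₀ hd] at hk
    linarith
  refine ⟨k.factorial / κ ^ k, by positivity, fun t ht => ?_⟩
  have ht0 : 0 < t := by linarith
  have h1 : 0 < t ^ (1 - 2 * c) := Real.rpow_pos_of_pos ht0 _
  have h2 := Real.pow_div_factorial_le_exp (κ * t ^ (1 - 2 * c)) (by positivity) k
  rw [Real.exp_neg]
  have h3 : 0 < (κ * t ^ (1 - 2 * c)) ^ k / k.factorial := by positivity
  have h4 := inv_anti₀ h3 h2
  refine h4.trans ?_
  rw [inv_div, mul_pow, ← Real.rpow_natCast (t ^ (1 - 2 * c)) k, ← Real.rpow_mul ht0.le]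
  rw [div_mul_eq_mul_div, div_le_div_iff₀ (by positivity) (by positivity)]
  have h5 : t ^ (-c) * t ^ ((1 - 2 * c) * (k : ℝ)) = t ^ ((1 - 2 * c) * (k : ℝ) - c) := by
    rw [← Real.rpow_add ht0]
    congr 1
    ring
  have h6 : 1 ≤ t ^ ((1 - 2 * c) * (k : ℝ) - c) := Real.one_le_rpow ht (by linarith)
  have h7 : (k.factorial : ℝ) * t ^ (-c) * (κ ^ k * t ^ ((1 - 2 * c) * (k : ℝ))) =
      (k.factorial : ℝ) * κ ^ k * (t ^ (-c) * t ^ ((1 - 2 * c) * (k : ℝ))) := by ring
  rw [h7, h5]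
  have h8 : 0 ≤ (k.factorial : ℝ) * κ ^ k := by positivity
  nlinarith

end VCNx

open VCNx in
/-- the main estimate -/
theorem t_VCN : S_VCN := by
  intro hF hA hH hUt c hc0 hc1
  obtain ⟨Ut, C, θ, hθ, hθ1, hC, h1, h2, h3, h4⟩ := hUt
  obtain ⟨K, hK0, hK⟩ := expo (θ / 320) c (by positivity) hc1
  refine ⟨1 + C + 2 * K, by positivity, fun t ht s => ?_⟩
  have ht1 : (1 : ℝ) ≤ t := by exact_mod_cast ht
  have ht0 : (0 : ℝ) < t := by linarith
  have htc : (0 : ℝ) < (t : ℝ) ^ c := Real.rpow_pos_of_pos ht0 c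
  have htc1 : (1 : ℝ) ≤ (t : ℝ) ^ c := Real.one_le_rpow ht1 hc0.le
  have htn : (0 : ℝ) < (t : ℝ) ^ (-c) := Real.rpow_pos_of_pos ht0 _
  obtain ⟨N, hN⟩ : ∃ N : ℕ, N = ⌈(t : ℝ) ^ c⌉₊ := ⟨_, rfl⟩
  have hN1 : (t : ℝ) ^ c ≤ N := by
    rw [hN]
    exact Nat.le_ceil _
  have hN2 : (N : ℝ) ≤ 2 * (t : ℝ) ^ c := by
    rw [hN]
    have := Nat.ceil_lt_add_one htc.le
    linarith
  have hN0 : 1 ≤ N := by
    have : (0 : ℝ) < N := by linarith
    have h5 : 0 < N := by exact_mod_cast this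
    exact h5
  have hb := bound hF hA hH Ut θ hθ hθ1 h1 h3 h4 N hN0 t s
  have hNp : (0 : ℝ) < N := by linarith
  have hUn : 0 ≤ Ut s := (Nat.cast_nonneg _).trans (h1 s)
  have g1 : Ut s / N ≤ (s.1 + C + Real.sqrt |(s.2 : ℝ)|) * (t : ℝ) ^ (-c) := by
    rw [Real.rpow_neg ht0.le, ← div_eq_mul_inv]
    exact div_le_div₀ (hUn.trans (h2 s)) (h2 s) htc hN1
  have g2 : Real.exp (-(t / (80 / θ * (N : ℝ) ^ 2))) ≤ K * (t : ℝ) ^ (-c) := by
    refine le_trans ?_ (hK t ht1)
    apply Real.exp_le_exp.2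
    apply neg_le_neg
    have a1 : (N : ℝ) ^ 2 ≤ 4 * (t : ℝ) ^ (2 * c) := by
      have a2 : (N : ℝ) ^ 2 ≤ (2 * (t : ℝ) ^ c) ^ 2 := pow_le_pow_left₀ hNp.le hN2 2
      refine a2.trans (le_of_eq ?_)
      rw [mul_pow, ← Real.rpow_natCast ((t : ℝ) ^ c) 2, ← Real.rpow_mul ht0.le]
      norm_num
      ring_nf
    have a3 : (0 : ℝ) < (t : ℝ) ^ (2 * c) := Real.rpow_pos_of_pos ht0 _
    have a4 : (t : ℝ) ^ (1 - 2 * c) = t / (t : ℝ) ^ (2 * c) := by
      rw [Real.rpow_sub ht0, Real.rpow_one]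
    rw [a4, ← mul_div_assoc, div_le_div_iff₀ a3 (by positivity)]
    have a5 : θ / 320 * t * (80 / θ * (N : ℝ) ^ 2) = t * (N : ℝ) ^ 2 / 4 := by
      field_simp
      norm_num
    rw [a5]
    nlinarith
  have hsq := Real.sqrt_nonneg |(s.2 : ℝ)|
  have hs1 : (0 : ℝ) ≤ s.1 := Nat.cast_nonneg _
  refine hb.trans ?_
  have g3 : Ut s / N + 2 * Real.exp (-(t / (80 / θ * (N : ℝ) ^ 2))) ≤
      (s.1 + C + Real.sqrt |(s.2 : ℝ)| + 2 * K) * (t : ℝ) ^ (-c) := by
    have : (s.1 + C + Real.sqrt |(s.2 : ℝ)| + 2 * K) * (t : ℝ) ^ (-c) =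
        (s.1 + C + Real.sqrt |(s.2 : ℝ)|) * (t : ℝ) ^ (-c) + 2 * (K * (t : ℝ) ^ (-c)) := by ring
    rw [this]
    linarith
  refine g3.trans ?_
  apply mul_le_mul_of_nonneg_right _ htn.le
  nlinarith [mul_nonneg hC hs1, mul_nonneg hC hsq, mul_nonneg hK0 hs1, mul_nonneg hK0 hsq]

end

end COA
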