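import Pool.Agent.COA.St

/-!
# The size of a state (`WDR`), helper2
-/

set_option autoImplicit false

namespace COA

noncomputable section

namespace WDRx

lemma s12 {a b : ℝ} (hb : 0 ≤ b) (h : a ≤ b / 2) :
    Real.sqrt a ≤ 70711 / 100000 * Real.sqrt b := by
  have h1 := Real.sqrt_nonneg b
  have h2 := Real.sq_sqrt hb
  rw [Real.sqrt_le_iff]
  refine ⟨by positivity, ?_⟩
  rw [mul_pow, h2]
  nlinarith

lemma s32 {a b : ℝ} (hb : 0 ≤ b) (h : a ≤ 3 / 2 * b + 1 / 2) :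
    Real.sqrt a ≤ 122475 / 100000 * Real.sqrt b + 70711 / 100000 := by
  have h1 := Real.sqrt_nonneg b
  have h2 := Real.sq_sqrt hb
  rw [Real.sqrt_le_iff]
  refine ⟨by positivity, ?_⟩
  have e : (122475 / 100000 * Real.sqrt b + 70711 / 100000) ^ 2 =
      (122475 / 100000) ^ 2 * Real.sqrt b ^ 2 +
        2 * (122475 / 100000) * (70711 / 100000) * Real.sqrt b + (70711 / 100000) ^ 2 := by ring
  rw [e, h2]
  nlinarith

lemma s3 {a b : ℝ} (hb : 0 ≤ b) (h : a ≤ 3 / 2 * b) :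
    Real.sqrt a ≤ 122475 / 100000 * Real.sqrt b := by
  have h1 := Real.sqrt_nonneg b
  have h2 := Real.sq_sqrt hb
  rw [Real.sqrt_le_iff]
  refine ⟨by positivity, ?_⟩
  rw [mul_pow, h2]
  nlinarith

lemma s0 {a : ℝ} (h : a ≤ 1 / 2) : Real.sqrt a ≤ 70711 / 100000 := by
  rw [Real.sqrt_le_iff]
  refine ⟨by norm_num, h.trans (by norm_num)⟩

lemma Wp {e : ℕ} {D : ℤ} (h : 0 ≤ D) : W (e, D) = Real.sqrt (D : ℝ) := by
  simp only [W, if_pos h]

lemma Wn {e : ℕ} {D : ℤ} (h : D < 0) : W (e, D) = Real.sqrt (-(D : ℝ) / 3 ^ e) := by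
  simp only [W, if_neg (not_le.2 h)]

lemma W0 (s : ℕ × ℤ) : 0 ≤ W s := by
  unfold W
  split_ifs <;> exact Real.sqrt_nonneg _

lemma q1 (e : ℕ) : (1 : ℝ) ≤ 3 ^ e := one_le_pow₀ (by norm_num)

lemma q1z (e : ℕ) : (1 : ℤ) ≤ 3 ^ e := one_le_pow₀ (by norm_num)

/-- `W (0, D) = sqrt |D|` -/
lemma Wz (D : ℤ) : W (0, D) = Real.sqrt |(D : ℝ)| := by
  rcases le_or_gt 0 D with h | h
  · rw [Wp h, abs_of_nonneg (by exact_mod_cast h)]
  · have h' : (D : ℝ) < 0 := by exact_mod_cast h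
    rw [Wn h, abs_of_neg h', pow_zero, div_one]

lemma half {e : ℕ} {D D' : ℤ} (h : 2 * D' = D) :
    W (e, D') ≤ 70711 / 100000 * W (e, D) := by
  have hr : 2 * (D' : ℝ) = D := by exact_mod_cast h
  rcases le_or_gt 0 D with h1 | h1
  · have h2 : 0 ≤ D' := by omega
    have h3 : (0 : ℝ) ≤ D := by exact_mod_cast h1
    rw [Wp h1, Wp h2]
    exact s12 h3 (by linarith)
  · have h2 : D' < 0 := by omega
    have h3 : (D : ℝ) < 0 := by exact_mod_cast h1
    rw [Wn h1, Wn h2]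
    have hq := q1 e
    refine s12 (div_nonneg (by linarith) (by linarith)) ?_
    rw [div_div, div_le_div_iff₀ (by linarith) (by linarith)]
    nlinarith

lemma even_true {e : ℕ} {D D' : ℤ} (h : 2 * D' = 3 * D + 1 - 3 ^ e) :
    W (e, D') ≤ 122475 / 100000 * W (e, D) + 70711 / 100000 := by
  have hr : 2 * (D' : ℝ) = 3 * D + 1 - 3 ^ e := by exact_mod_cast h
  have hq := q1 e
  have hqz := q1z e
  have hq0 : (0 : ℝ) < 3 ^ e := by linarith
  rcases le_or_gt 0 D with h1 | h1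
  · have h3 : (0 : ℝ) ≤ D := by exact_mod_cast h1
    rcases le_or_gt 0 D' with h2 | h2
    · rw [Wp h1, Wp h2]
      exact s32 h3 (by linarith)
    · have h4 : Real.sqrt (-(D' : ℝ) / 3 ^ e) ≤ 70711 / 100000 := by
        apply s0
        rw [div_le_iff₀ hq0]
        linarith
      rw [Wp h1, Wn h2]
      have := Real.sqrt_nonneg (D : ℝ)
      linarith
  · have h2 : D' < 0 := by omega
    have h3 : (D : ℝ) < 0 := by exact_mod_cast h1
    rw [Wn h1, Wn h2]
    refine s32 (div_nonneg (by linarith) (by linarith)) ?_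
    have e1 : 3 / 2 * (-(D : ℝ) / 3 ^ e) + 1 / 2 = (3 / 2 * (-(D : ℝ)) + 1 / 2 * 3 ^ e) / 3 ^ e := by
      field_simp
    rw [e1, div_le_div_iff_of_pos_right hq0]
    linarith

lemma odd_false_pos {e : ℕ} {D D' : ℤ} (h : 2 * D' = 3 * D + 1) (h1 : 0 < D) :
    W (e + 1, D') ≤ 122475 / 100000 * W (e, D) + 70711 / 100000 := by
  have hr : 2 * (D' : ℝ) = 3 * D + 1 := by exact_mod_cast h
  have h3 : (0 : ℝ) ≤ D := by exact_mod_cast h1.le
  rw [Wp h1.le, Wp (show (0 : ℤ) ≤ D' by omega)]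
  exact s32 h3 (by linarith)

lemma odd_false_neg {e : ℕ} {D D' : ℤ} (h : 2 * D' = 3 * D + 1) (h1 : D < 0) :
    W (e + 1, D') ≤ 70711 / 100000 * W (e, D) := by
  have hr : 2 * (D' : ℝ) = 3 * D + 1 := by exact_mod_cast h
  have h3 : (D : ℝ) < 0 := by exact_mod_cast h1
  have hq := q1 e
  rw [Wn h1, Wn (show D' < 0 by omega)]
  refine s12 (div_nonneg (by linarith) (by linarith)) ?_
  rw [div_div, div_le_div_iff₀ (by positivity) (by positivity), pow_succ]
  nlinarith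

lemma odd_true_pos {e : ℕ} {D D' : ℤ} (h : 2 * D' = D - 3 ^ e) (h1 : 0 < D) :
    W (e, D') ≤ 70711 / 100000 * W (e + 1, D) + 70711 / 100000 := by
  have hr : 2 * (D' : ℝ) = D - 3 ^ e := by exact_mod_cast h
  have hq := q1 e
  have hq0 : (0 : ℝ) < 3 ^ e := by linarith
  have h3 : (0 : ℝ) ≤ D := by exact_mod_cast h1.le
  rw [Wp h1.le]
  rcases le_or_gt 0 D' with h2 | h2
  · rw [Wp h2]
    have := s12 (a := (D' : ℝ)) h3 (by linarith)
    linarith
  · have h4 : Real.sqrt (-(D' : ℝ) / 3 ^ e) ≤ 70711 / 100000 := by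
      apply s0
      rw [div_le_iff₀ hq0]
      linarith
    rw [Wn h2]
    have := Real.sqrt_nonneg (D : ℝ)
    linarith

lemma odd_true_neg {e : ℕ} {D D' : ℤ} (h : 2 * D' = D - 3 ^ e) (h1 : D < 0) :
    W (e, D') ≤ 122475 / 100000 * W (e + 1, D) + 70711 / 100000 := by
  have hr : 2 * (D' : ℝ) = D - 3 ^ e := by exact_mod_cast h
  have hq := q1 e
  have hqz := q1z e
  have hq0 : (0 : ℝ) < 3 ^ e := by linarith
  have h3 : (D : ℝ) < 0 := by exact_mod_cast h1
  rw [Wn h1, Wn (show D' < 0 by omega)]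
  refine s32 (div_nonneg (by linarith) (by positivity)) ?_
  have e1 : 3 / 2 * (-(D : ℝ) / 3 ^ (e + 1)) + 1 / 2 =
      (1 / 2 * (-(D : ℝ)) + 1 / 2 * 3 ^ e) / 3 ^ e := by
    rw [pow_succ]
    field_simp
  rw [e1, div_le_div_iff_of_pos_right hq0]
  linarith

lemma zero_true_pos {D D' : ℤ} (h : 2 * D' = 1 - 3 * D) (h1 : 0 < D) :
    W (1, D') ≤ 70711 / 100000 * W (0, D) := by
  have hr : 2 * (D' : ℝ) = 1 - 3 * D := by exact_mod_cast h
  have h3 : (0 : ℝ) < D := by exact_mod_cast h1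
  rw [Wp h1.le, Wn (show D' < 0 by omega)]
  refine s12 h3.le ?_
  rw [pow_one]
  linarith

lemma zero_true_neg {D D' : ℤ} (h : 2 * D' = 1 - 3 * D) (h1 : D < 0) :
    W (1, D') ≤ 122475 / 100000 * W (0, D) + 70711 / 100000 := by
  have hr : 2 * (D' : ℝ) = 1 - 3 * D := by exact_mod_cast h
  have h3 : (D : ℝ) < 0 := by exact_mod_cast h1
  rw [Wn h1, Wp (show 0 ≤ D' by omega), pow_zero, div_one]
  exact s32 (by linarith) (by linarith)

lemma zero_even {D D' : ℤ} (h : 2 * D' = 3 * D) :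
    W (0, D') ≤ 122475 / 100000 * W (0, D) := by
  have hr : 2 * (D' : ℝ) = 3 * D := by exact_mod_cast h
  rcases le_or_gt 0 D with h1 | h1
  · have h3 : (0 : ℝ) ≤ D := by exact_mod_cast h1
    rw [Wp h1, Wp (show 0 ≤ D' by omega)]
    exact s3 h3 (by linarith)
  · have h3 : (D : ℝ) < 0 := by exact_mod_cast h1
    rw [Wn h1, Wn (show D' < 0 by omega), pow_zero, div_one, div_one]
    exact s3 (by linarith) (by linarith)

lemma q_odd (e : ℕ) : (3 : ℤ) ^ e % 2 = 1 := by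
  have h : Odd ((3 : ℤ) ^ e) := Odd.pow (by decide)
  exact Int.odd_iff.1 h

lemma st_ef {e : ℕ} {D : ℤ} (h : D % 2 = 0) : step (e, D) false = (e, D / 2) := by
  simp [step, h]

lemma st_et {e : ℕ} {D : ℤ} (h : D % 2 = 0) :
    step (e, D) true = (e, (3 * D + 1 - 3 ^ e) / 2) := by
  simp [step, h]

lemma st_of {e : ℕ} {D : ℤ} (h : D % 2 = 1) : step (e, D) false = (e + 1, (3 * D + 1) / 2) := by
  simp [step, h]

lemma st_ot {e : ℕ} {D : ℤ} (h : D % 2 = 1) :
    step (e + 1, D) true = (e, (D - 3 ^ e) / 2) := by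
  simp [step, h]

lemma st_zt {D : ℤ} (h : D % 2 = 1) : step (0, D) true = (1, (1 - 3 * D) / 2) := by
  simp [step, h]

end WDRx

open WDRx in
theorem t_WDR : S_WDR := by
  refine ⟨fun s => ⟨W0 s, ?_⟩, ?_, ?_, ?_, ?_, ?_⟩
  · obtain ⟨e, D⟩ := s
    rcases le_or_gt 0 D with h | h
    · rw [Wp h]
      exact Real.sqrt_le_sqrt (le_abs_self _)
    · rw [Wn h]
      have h' : (D : ℝ) < 0 := by exact_mod_cast h
      apply Real.sqrt_le_sqrt
      rw [abs_of_neg h']
      exact div_le_self (by linarith) (q1 e)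
  · rintro ⟨e, D⟩ he hD
    dsimp only at he hD
    have hq := q_odd e
    have h1 := half (e := e) (D := D) (D' := D / 2) (by omega)
    have h2 := even_true (e := e) (D := D) (D' := (3 * D + 1 - 3 ^ e) / 2) (by omega)
    have h3 := W0 (e, D)
    rw [avg, st_ef hD, st_et hD]
    linarith
  · rintro ⟨e, D⟩ he hD
    dsimp only at he hD
    obtain ⟨n, rfl⟩ : ∃ n, e = n + 1 := ⟨e - 1, by omega⟩
    have hq := q_odd n
    have h3 := W0 (n + 1, D)
    rw [st_of hD, st_ot hD]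
    have e1 : 2 * ((3 * D + 1) / 2) = 3 * D + 1 := by omega
    have e2 : 2 * ((D - 3 ^ n) / 2) = D - 3 ^ n := by omega
    rcases lt_or_gt_of_ne (show D ≠ 0 by omega) with h | h
    · have h1 := odd_false_neg (e := n + 1) e1 h
      have h2 := odd_true_neg (e := n) e2 h
      linarith
    · have h1 := odd_false_pos (e := n + 1) e1 h
      have h2 := odd_true_pos (e := n) e2 h
      linarith
  · rintro ⟨e, D⟩ he
    dsimp only at he
    subst he
    exact Wz D
  · rintro ⟨e, D⟩ he hD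
    dsimp only at he hD
    subst he
    have h1 := half (e := 0) (D := D) (D' := D / 2) (by omega)
    have h2 := zero_even (D := D) (D' := (3 * D + 1 - 3 ^ 0) / 2) (by rw [pow_zero]; omega)
    have h3 := W0 (0, D)
    rw [avg, st_ef hD, st_et hD]
    linarith
  · rintro ⟨e, D⟩ he hD
    dsimp only at he hD
    subst he
    have h3 := W0 (0, D)
    rw [avg, st_of hD, st_zt hD]
    have e1 : 2 * ((3 * D + 1) / 2) = 3 * D + 1 := by omega
    have e2 : 2 * ((1 - 3 * D) / 2) = 1 - 3 * D := by omega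
    rcases lt_or_gt_of_ne (show D ≠ 0 by omega) with h | h
    · have h1 := odd_false_neg (e := 0) e1 h
      have h2 := zero_true_neg e2 h
      linarith
    · have h1 := odd_false_pos (e := 0) e1 h
      have h2 := zero_true_pos e2 h
      linarith

end

end COA
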